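import Pool.Agent.P.MP_8b7eba_nt.R2.IfB
import Pool.Agent.P.MP_8b7eba_nt.R2.TPL
import Pool.Agent.P.MP_8b7eba_nt.R2.TGAL
import Pool.Agent.P.MP_8b7eba_nt.R2.TFROB
import Pool.Agent.P.MP_8b7eba_nt.R2.TDENS
import Pool.Agent.P.MP_8b7eba_nt.R2.TUNIF
import Pool.Agent.P.MP_8b7eba_nt.R2.TRES
import Pool.Agent.P.MP_8b7eba_nt.R2.TTAME
import Pool.Agent.P.MP_8b7eba_nt.R2.THENS
import Pool.Agent.P.MP_8b7eba_nt.R2.TEC
import Pool.Agent.P.MP_8b7eba_nt.R2.TEC2
import Pool.Agent.P.MP_8b7eba_nt.R2.TART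
import Pool.Agent.P.MP_8b7eba_nt.R2.TORB
import Pool.Agent.P.MP_8b7eba_nt.R2.TGENP
import Pool.Agent.P.MP_8b7eba_nt.R2.TCLS
import Pool.Agent.P.MP_8b7eba_nt.R2.TSUN
import Pool.Agent.P.MP_8b7eba_nt.R2.TSYL
import Pool.Agent.P.MP_8b7eba_nt.R2.TCYC1
import Pool.Agent.P.MP_8b7eba_nt.R2.TCYC2
import Pool.Agent.P.MP_8b7eba_nt.R2.TCUP
import Pool.Agent.P.MP_8b7eba_nt.R2.TUNR
import Pool.Agent.P.MP_8b7eba_nt.R2.TSQ1
import Pool.Agent.P.MP_8b7eba_nt.R2.TSQ2
import Pool.Agent.P.MP_8b7eba_nt.R2.TNI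
import Pool.Agent.P.MP_8b7eba_nt.R2.TSERRE
import Pool.Agent.P.MP_8b7eba_nt.R2.TUNIT
import Pool.Agent.P.MP_8b7eba_nt.R2.TDIE
import Pool.Agent.P.MP_8b7eba_nt.R2.TNRMK1
import Pool.Agent.P.MP_8b7eba_nt.R2.TINV
import Pool.Agent.P.MP_8b7eba_nt.R2.TINV2
import Pool.Agent.P.MP_8b7eba_nt.R2.TLD
import Pool.Agent.P.MP_8b7eba_nt.R2.TEP
import Pool.Agent.P.MP_8b7eba_nt.R2.TFIRST
import Pool.Agent.P.MP_8b7eba_nt.R2.TTEX
import Pool.Agent.P.MP_8b7eba_nt.R2.TKEY
import Pool.Agent.P.MP_8b7eba_nt.R2.THASSE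
import Pool.Agent.P.MP_8b7eba_nt.R2.TABHN
import Pool.Agent.P.MP_8b7eba_nt.R2.TRECQ
import Pool.Agent.P.MP_8b7eba_nt.R2.TFILT

/-! The first layer of class field theory, put together. -/

set_option autoImplicit false

namespace Pool.Agent.P.MP_657a03_nt.GS

open Pool.Agent.P.MP_8b7eba_nt.R2

theorem caAll : CA := by
  have pl := t_PL
  have gal := t_GAL
  have frob := t_FROB pl gal
  have dens := t_DENS pl
  have wa := t_WA pl
  have unif := t_UNIF pl gal frob dens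
  have res := t_RES unif dens
  have tame := t_TAME gal
  have tame2 := t_TAME2 gal
  have hens := t_HENS
  have tau := t_TAU
  have ec := t_EC tau
  have ec2 := t_EC2 unif ec
  have lg := t_LG frob ec ec2
  have art := t_ART pl res
  have orb := t_ORB pl
  have genp := t_GENP pl gal frob
  have cls := t_CLS pl unif
  have sun := t_SUN pl unif cls orb tau
  have syl := t_SYL
  have gas := t_GAS
  have cyc1 := t_CYC1 gal
  have cyc2 := t_CYC2 gal
  have cup := t_CUP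
  have sym := t_SYM cyc1 cyc2
  have uch := t_UCH frob
  have unr := t_UNR frob
  have sq1 := t_SQ1 unif res hens t_HQ
  have sq2 := t_SQ2 pl frob res hens
  have ni := t_NI gal unif res hens t_HQ
  have serre := t_SERRE gal ni hens unif
  have nu := t_NU gal ni hens unif
  have unit := t_UNIT gal ni unif sym
  have die := t_DIE gal syl gas cyc1 cyc2 cup sym uch unif ni serre unit
  have diek := t_DIEK lg die
  have nrmk := t_NRMK frob ec lg art unit (t_NRMK1 pl frob dens res ec ec2 lg art orb)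
  have inv := t_INV ec lg art cyc1 cyc2 cup diek nrmk
  have inv2 := t_INV2 ec lg art cup sym inv ni res sq2 nu
  have ld := t_LD gal cup sym ni die t_FILT
  have ep := t_EP gal cup sym ni sq1 t_FILT
  have first := t_FIRST gal pl unif orb cls sun tau t_HQ2 sq2
  have tex := t_TEX sun genp sq2 frob
  have key := t_KEY unif orb sq2 ni nu first
  have hasse := t_HASSE pl tau orb cls sun sq1 ni first tex key
  have abhn := t_ABHN gal syl gas sym hasse
  exact ⟨pl, gal, frob, dens, wa, unif, res, tame, tame2, hens, ec, ec2, lg, tau, art, orb, genp,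
    cls, sun, syl, gas, cyc1, cyc2, cup, sym, uch, unr, sq1, sq2, ni, serre, nu, unit, die, diek,
    nrmk, inv, inv2, ld, ep, hasse, abhn,
    t_REC pl ec lg art orb cyc1 cup diek inv inv2 abhn,
    t_RECQ pl ec lg tau art orb cyc1 cyc2 cup diek inv inv2 abhn⟩

end Pool.Agent.P.MP_657a03_nt.GS
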