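import Pool.Agent.P.MP_657a03_nt.GS.If

/-! Proof of COC. -/

set_option autoImplicit false

namespace Pool.Agent.P.MP_657a03_nt.GS

open Pool.Agent.P.MP_8b7eba_nt.R2
open MonoidAlgebra

namespace COC

variable {G : Type} [Group G]

theorem ind {M : Type} [AddCommGroup M] {f f' : GA G →+ M}
    (h : ∀ x, f (of (ZMod 2) G x) = f' (of (ZMod 2) G x)) (a : GA G) : f a = f' a := by
  induction a using MonoidAlgebra.induction_linear with
  | zero => simp
  | add a b ha hb => simp [ha, hb]
  | single x r =>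
    obtain rfl | rfl : r = 0 ∨ r = 1 := by revert r; decide
    · simp
    · exact h x

theorem ext {M : Type} [AddCommGroup M] [Module (ZMod 2) M] (s : G → M) :
    ∃ S : GA G →+ M, ∀ g, S (of (ZMod 2) G g) = s g :=
  ⟨((MonoidAlgebra.basis G (ZMod 2)).constr (ZMod 2) s).toAddMonoidHom, fun g =>
    (MonoidAlgebra.basis G (ZMod 2)).constr_basis (ZMod 2) s g⟩

/-- an invariant additive map kills the augmentation ideal -/
theorem kill {V M : Type} [AddCommGroup V] [Module (GA G) V] [AddCommGroup M] (ν : V →+ M)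
    (h : ∀ g v, ν (of (ZMod 2) G g • v) = ν v) {r : GA G} (hr : r ∈ aug G) (v : V) :
    ν (r • v) = 0 := by
  have key : ∀ a : GA G, ν (a • r • v) = 0 := by
    induction hr using Submodule.span_induction with
    | mem r hr =>
      obtain ⟨g, rfl⟩ := hr
      exact ind (f := ν.comp ((smulAddHom (GA G) V).flip _)) (f' := 0) fun x => by
        simp only [AddMonoidHom.comp_apply, AddMonoidHom.flip_apply, smulAddHom_apply]
        rw [h, sub_smul, map_sub, h, one_smul, sub_self, AddMonoidHom.zero_apply]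
    | zero => simp
    | add x y _ _ hx hy => simp [add_smul, hx, hy]
    | smul b x _ hx => intro a; rw [smul_eq_mul, mul_smul, ← mul_smul, hx]
  simpa using key 1

end COC

theorem t_COC : S_COC := by
  intro G _ _ d φ hr hk
  have h1 : ∀ g : G, ∃ v, φ v = of (ZMod 2) G g - 1 ∧ (g = 1 → v = 0) := fun g => by
    by_cases e : g = 1
    · exact ⟨0, by simp [e, one_def], fun _ => rfl⟩
    · obtain ⟨v, hv⟩ : of (ZMod 2) G g - 1 ∈ LinearMap.range φ :=
        hr ▸ Ideal.subset_span ⟨g, rfl⟩
      exact ⟨v, hv, fun e' => absurd e' e⟩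
  choose s hs s1 using h1
  replace s1 := s1 1 rfl
  refine ⟨fun g h => ⟨s g + of (ZMod 2) G g • s h - s (g * h), ?_⟩, fun g => Subtype.ext ?_,
    fun g => Subtype.ext ?_, fun g h k => Subtype.ext ?_, fun l hl hθ => ?_⟩
  · rw [LinearMap.mem_ker, map_sub, map_add, map_smul, hs, hs, hs, map_mul, smul_eq_mul]
    noncomm_ring
  · simp only [map_one, s1, one_smul, one_mul, zero_add, sub_self, ZeroMemClass.coe_zero]
  · simp only [s1, smul_zero, mul_one, add_zero, sub_self, ZeroMemClass.coe_zero]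
  · simp only [Submodule.coe_add, Submodule.coe_smul, smul_sub, smul_add, map_mul, mul_smul,
      mul_assoc]
    abel
  obtain ⟨θ, hθ⟩ := hθ
  obtain ⟨S, hS⟩ := COC.ext s
  obtain ⟨T, hT⟩ := COC.ext θ
  have h2 : ∀ v, φ (S (φ v)) = φ v := fun v => by
    obtain ⟨ε, hε⟩ := COC.ext fun _ : G => (1 : GA G)
    have h3 := COC.kill ε (fun g => COC.ind (f := ε.comp (AddMonoidHom.mulLeft _)) fun x => by
      rw [AddMonoidHom.comp_apply, AddMonoidHom.coe_mulLeft, ← map_mul, hε, hε])
      (hr ▸ LinearMap.mem_range_self φ v) 1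
    rw [smul_eq_mul, mul_one] at h3
    have := COC.ind (f := φ.toAddMonoidHom.comp S) (f' := AddMonoidHom.id _ - ε) (fun x => by
      simp only [AddMonoidHom.comp_apply, LinearMap.toAddMonoidHom_coe, hS, hs,
        AddMonoidHom.sub_apply, AddMonoidHom.id_apply, hε]) (φ v)
    simpa [h3] using this
  obtain ⟨ν, hν⟩ : ∃ ν : (Fin d → GA G) →+ ZMod 2, ∀ v (x : LinearMap.ker φ),
      x = v - S (φ v) → ν v = l x + T (φ v) :=
    ⟨l.comp ((AddMonoidHom.id _ - S.comp φ.toAddMonoidHom).codRestrict (LinearMap.ker φ)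
      fun v => by simp [h2]) + T.comp φ.toAddMonoidHom, fun v x e =>
        congrArg (l · + T (φ v)) (Subtype.ext e.symm)⟩
  have h3 : ∀ x : LinearMap.ker φ, ν x = l x := fun x => by
    rw [hν x x (by simp), x.2, map_zero, add_zero]
  have h4 : ∀ g h, ν (of (ZMod 2) G g • s h) = θ h := fun g h => by
    have e : φ (of (ZMod 2) G g • s h) = of (ZMod 2) G (g * h) - of (ZMod 2) G g := by
      rw [map_smul, hs, map_mul, smul_eq_mul, mul_sub, mul_one]
    obtain ⟨x, hx, e2⟩ : ∃ x : LinearMap.ker φ, x.1 = s g + of (ZMod 2) G g • s h - s (g * h) ∧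
      θ (g * h) = θ g + θ h + l x := ⟨_, rfl, hθ g h⟩
    rw [hν _ x (by rw [e, map_sub, hS, hS, hx]; abel), e, map_sub, hT, hT, e2]
    generalize l x = a
    generalize θ g = b
    generalize θ h = c
    revert a b c
    decide
  have h5 : ∀ g v, ν (of (ZMod 2) G g • v) = ν v := fun g v => by
    have e := COC.ind (f := ν.comp ((DistribSMul.toAddMonoidHom _ (of (ZMod 2) G g)).comp S))
      (f' := ν.comp S) (fun x => by
        simp only [AddMonoidHom.comp_apply, DistribSMul.toAddMonoidHom_apply, hS]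
        rw [h4, ← h4 1 x, map_one, one_smul]) (φ v)
    have e' := hl g ⟨v - S (φ v), by simp [h2]⟩
    rw [← h3, ← h3] at e'
    simp only [AddMonoidHom.comp_apply, DistribSMul.toAddMonoidHom_apply, Submodule.coe_smul,
      smul_sub, map_sub] at e e'
    rwa [e, sub_left_inj] at e'
  ext x
  rw [← h3]
  refine Submodule.smul_induction_on (p := fun v => ν v = 0) (hk x.2)
    (fun r hr v _ => COC.kill ν h5 hr v) fun a b ha hb => by rw [map_add, ha, hb, add_zero]

end Pool.Agent.P.MP_657a03_nt.GS
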