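import Pool.Agent.P.MP_657a03_nt.GS.If
import Pool.Agent.P.MP_8b7eba_nt.R2.LC
import Pool.Agent.P.MP_8b7eba_nt.R2.TGENP

/-! Proof of DISC. -/

set_option autoImplicit false

namespace Pool.Agent.P.MP_657a03_nt.GS

open Pool.Agent.P.MP_8b7eba_nt.R2

namespace DISC

open NumberField UniqueFactorizationMonoid

attribute [local instance] Ideal.Quotient.field

/-- a tame factor of a rational prime does not divide the different -/
theorem tame {K : Type} [Field K] [NumberField K] {l n : ℕ} (hl : l.Prime) (R Q : Ideal (𝓞 K))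
    (hc : IsCoprime R Q) (hP : R * Q = (Ideal.span {(l : ℤ)}).map (algebraMap ℤ (𝓞 K)))
    (hn : R.absNorm = l ^ n) (hd : ¬ l ∣ n) : ¬ R ∣ differentIdeal ℤ (𝓞 K) := by
  set p : Ideal ℤ := Ideal.span {(l : ℤ)} with hp
  have hpm : p.IsMaximal :=
    PrincipalIdealRing.isMaximal_of_irreducible (Nat.prime_iff_prime_int.1 hl).irreducible
  let : Algebra (ℤ ⧸ p) (𝓞 K ⧸ Q) := Ideal.Quotient.algebraQuotientOfLEComap (by
      rw [← Ideal.map_le_iff_le_comap, ← hP]
      exact Ideal.mul_le_right)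
  let : Algebra (ℤ ⧸ p) (𝓞 K ⧸ R) := Ideal.Quotient.algebraQuotientOfLEComap (by
      rw [← Ideal.map_le_iff_le_comap, ← hP]
      exact Ideal.mul_le_left)
  have : IsScalarTower ℤ (ℤ ⧸ p) (𝓞 K ⧸ Q) := .of_algebraMap_eq' rfl
  have : IsScalarTower ℤ (ℤ ⧸ p) (𝓞 K ⧸ R) := .of_algebraMap_eq' rfl
  have : Module.Finite (ℤ ⧸ p) (𝓞 K ⧸ Q) := Module.Finite.of_restrictScalars_finite ℤ _ _
  have : Module.Finite (ℤ ⧸ p) (𝓞 K ⧸ R) := Module.Finite.of_restrictScalars_finite ℤ _ _
  let e : (𝓞 K ⧸ p.map (algebraMap ℤ (𝓞 K))) ≃ₐ[ℤ ⧸ p] ((𝓞 K ⧸ R) × 𝓞 K ⧸ Q) :=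
    { __ := (Ideal.quotEquivOfEq hP.symm).trans (Ideal.quotientMulEquivQuotientProd R Q hc),
      commutes' := Quotient.ind fun _ ↦ rfl }
  have hr : Module.finrank (ℤ ⧸ p) (𝓞 K ⧸ R) = n := by
    have h1 := Module.natCard_eq_pow_finrank (K := ℤ ⧸ p) (V := 𝓞 K ⧸ R)
    have h2 : Nat.card (ℤ ⧸ p) = l := by
      have := Ideal.absNorm_span_natCast (S := ℤ) l
      simpa [Ideal.absNorm_apply, Submodule.cardQuot_apply] using this
    rw [h2, ← Submodule.cardQuot_apply, ← Ideal.absNorm_apply, hn] at h1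
    exact (Nat.pow_right_injective hl.two_le h1).symm
  have hx : Algebra.trace (ℤ ⧸ p) (𝓞 K ⧸ R) 1 ≠ 0 := by
    rw [← map_one (algebraMap (ℤ ⧸ p) (𝓞 K ⧸ R)), Algebra.trace_algebraMap, hr, nsmul_eq_mul,
      mul_one, ← map_natCast (Ideal.Quotient.mk p), Ne, Ideal.Quotient.eq_zero_iff_mem,
      Ideal.mem_span_singleton]
    exact_mod_cast hd
  obtain ⟨y, hy⟩ := Ideal.Quotient.mk_surjective (e.symm (1, 0))
  refine not_dvd_differentIdeal_of_intTrace_not_mem ℤ R Q hP y ?_ ?_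
  · have := congr((e $hy).2)
    simp at this
    simpa [e, Ideal.Quotient.eq_zero_iff_mem] using this
  · rw [← Ideal.Quotient.eq_zero_iff_mem, ← Algebra.trace_quotient_eq_of_isDedekindDomain,
      hy, Algebra.trace_eq_of_algEquiv, Algebra.trace_prod_apply]
    simpa using hx

/-- the discriminant of a Galois field of two-power degree unramified outside a set of odd primes -/
theorem main {K : Type} [Field K] [NumberField K] [IsGalois ℚ K] (S : Finset ℕ) (k : ℕ)
    (hk : Module.finrank ℚ K = 2 ^ k) (h2 : 2 ∉ S) (h0 : 0 ∉ S)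
    (hu : ∀ l : ℕ, l.Prime → l ∉ S → ∀ P : Ideal (𝓞 K), P.IsMaximal → (l : 𝓞 K) ∈ P →
      (l : 𝓞 K) ∉ P ^ 2) :
    (discr K).natAbs ≤ (∏ l ∈ S, l) ^ 2 ^ k := by
  classical
  have hm : ∏ l ∈ S, l ≠ 0 := Finset.prod_ne_zero_iff.2 fun l h e => h0 (e ▸ h)
  have key : differentIdeal ℤ (𝓞 K) ∣ Ideal.span {((∏ l ∈ S, l : ℕ) : 𝓞 K)} := by
    refine (dvd_iff_emultiplicity_le differentIdeal_ne_bot).2 fun P hP => ?_
    have hPp : P.IsPrime := Ideal.isPrime_of_prime hP
    have hPm : P.IsMaximal := hPp.isMaximal hP.ne_zero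
    obtain ⟨l, -, -, hlP, hl, -⟩ := Ideal.exists_prime_and_absNorm_eq_pow P
    set p : Ideal ℤ := Ideal.span {(l : ℤ)} with hp
    have hpm : p.IsMaximal :=
      PrincipalIdealRing.isMaximal_of_irreducible (Nat.prime_iff_prime_int.1 hl).irreducible
    have hmap : p.map (algebraMap ℤ (𝓞 K)) = Ideal.span {(l : 𝓞 K)} := by
      simp [hp, Ideal.map_span]
    have hle : p.map (algebraMap ℤ (𝓞 K)) ≤ P := by
      rw [hmap, Ideal.span_le, Set.singleton_subset_iff]
      exact hlP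
    have : P.LiesOver p := ⟨hpm.eq_of_le (by simpa using hPm.ne_top)
      (Ideal.map_le_iff_le_comap.1 hle)⟩
    have hne : p.map (algebraMap ℤ (𝓞 K)) ≠ ⊥ := by
      rw [hmap, Ne, Ideal.span_singleton_eq_bot]
      exact_mod_cast hl.ne_zero
    obtain ⟨Q, hQ, he⟩ := Ideal.eq_prime_pow_mul_coprime hne P
    rw [← Ideal.IsDedekindDomain.ramificationIdx_eq_normalizedFactors_count p P hne] at he
    have hc : IsCoprime P Q := Ideal.isCoprime_iff_sup_eq.2 hQ
    by_cases hS : l ∈ S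
    · have h1 := Ideal.ncard_primesOver_mul_ramificationIdxIn_mul_inertiaDegIn p (𝓞 K) Gal(K/ℚ)
      rw [Ideal.ramificationIdxIn_eq_ramificationIdx p P Gal(K/ℚ),
        Ideal.inertiaDegIn_eq_inertiaDeg p P Gal(K/ℚ), IsGalois.card_aut_eq_finrank, hk] at h1
      have h3 : P.absNorm = l ^ P.inertiaDeg ℤ := by
        simpa using (Ideal.natAbs_pow_inertiaDeg (l : ℤ) P).symm
      have h4 := tame (n := P.ramificationIdx ℤ * P.inertiaDeg ℤ) hl _ Q hc.pow_left he.symm
        (by rw [map_pow, h3, ← pow_mul, mul_comm]) fun h => h2 (by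
          have h5 := hl.dvd_of_dvd_pow (h1 ▸ h.mul_left _)
          rwa [← (Nat.prime_dvd_prime_iff_eq hl Nat.prime_two).1 h5])
      rw [← emultiplicity_lt_iff_not_dvd] at h4
      refine h4.le.trans (le_emultiplicity_of_pow_dvd ((Dvd.intro _ he.symm).trans ?_))
      rw [hmap, Ideal.dvd_iff_le, Ideal.span_singleton_le_span_singleton]
      exact Nat.cast_dvd_cast (Finset.dvd_prod_of_mem _ hS)
    · have h1 : P.ramificationIdx ℤ = 1 := by
        rcases Nat.lt_trichotomy (P.ramificationIdx ℤ) 1 with h | h | h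
        · rw [Nat.lt_one_iff.1 h, pow_zero, one_mul] at he
          rw [he] at hle
          exact absurd ((sup_eq_left.2 hle).symm.trans hQ) hPm.ne_top
        · exact h
        · refine absurd ?_ (hu l hl hS P hPm hlP)
          have h3 : p.map (algebraMap ℤ (𝓞 K)) ≤ P ^ 2 :=
            he.le.trans (Ideal.mul_le_left.trans (Ideal.pow_le_pow_right h))
          rw [hmap, Ideal.span_le, Set.singleton_subset_iff] at h3
          exact h3
      rw [h1, pow_one] at he
      have : Finite (ℤ ⧸ p) := Ideal.finiteQuotientOfFreeOfNeBot p (by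
        rw [hp, Ne, Ideal.span_singleton_eq_bot]
        exact_mod_cast hl.ne_zero)
      rw [emultiplicity_eq_zero.2 (not_dvd_differentIdeal_of_isCoprime ℤ P Q hc he.symm)]
      exact zero_le
  have h1 := Ideal.absNorm_dvd_absNorm_of_le (Ideal.le_of_dvd key)
  rw [absNorm_differentIdeal K, Ideal.absNorm_span_natCast, RingOfIntegers.rank, hk] at h1
  exact Nat.le_of_dvd (Nat.pos_of_ne_zero (pow_ne_zero _ hm)) h1

end DISC

theorem t_DISC (hA : CA) : S_DISC := by
  intro N k _ hN hU hk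
  have : IsGalois ℚ (IntermediateField.fixedField N) :=
    (InfiniteGalois.normal_iff_isGalois _).1 (by rw [Basic.fs hN.2]; exact hN.1)
  refine DISC.main SS k ((finrank_fixedField hN.2).trans hk) (by decide) (by decide)
    fun l hl hS P hP hlP h2 => ?_
  obtain ⟨w, rfl, hw⟩ := TGENP.abv _ P hP hl hlP
  have hu : w.Unif w.I w.p := (hA.res w w.D w.loc_D).2.2.2.2.1
  have h1 : ∀ z ∈ P, w.v ((z : IntermediateField.fixedField N) : Om) ≤ w.v w.p := fun z hz =>
    hu.le (fun σ hσ => (z : IntermediateField.fixedField N).2 ⟨σ, hU w hS hσ⟩) (hw z hz)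
  have h3 : ∀ z ∈ P ^ 2, w.v ((z : IntermediateField.fixedField N) : Om) ≤ w.v w.p * w.v w.p := by
    intro z hz
    rw [pow_two] at hz
    refine Submodule.mul_induction_on hz (fun a ha b hb => ?_) fun a b ha hb => ?_
    · push_cast
      rw [map_mul]
      exact mul_le_mul' (h1 a ha) (h1 b hb)
    · push_cast
      exact w.v.map_add_le ha hb
  have h4 := h3 _ h2
  push_cast at h4
  have h5 : w.v w.p ≠ 0 := by simpa using hu.2.1
  exact absurd (le_of_mul_le_mul_left ((mul_one _).le.trans h4) (pos_iff_ne_zero.2 h5))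
    (not_le.2 hu.2.2.1)

end Pool.Agent.P.MP_657a03_nt.GS
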