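import Pool.Agent.P.MP_657a03_nt.GS.If

/-! Proof of FIL. -/

set_option autoImplicit false

namespace Pool.Agent.P.MP_657a03_nt.GS

open Pool.Agent.P.MP_8b7eba_nt.R2

namespace FIL

variable {A : Type} [Ring A] (I : Ideal A)

/-- the filtration -/
def F {M : Type} [AddCommGroup M] [Module A M] : ℕ → Submodule A M → Submodule A M
  | 0, P => P
  | n + 1, P => I • F n P

theorem F_succ' {M : Type} [AddCommGroup M] [Module A M] (n : ℕ) (P : Submodule A M) :
    F I (n + 1) P = F I n (I • P) := by
  induction n with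
  | zero => rfl
  | succ n ih => show I • F I (n + 1) P = I • F I n (I • P); rw [ih]

theorem F_mono {M : Type} [AddCommGroup M] [Module A M] (n : ℕ) {P Q : Submodule A M}
    (h : P ≤ Q) : F I n P ≤ F I n Q := by
  induction n with
  | zero => exact h
  | succ n ih => exact Submodule.smul_mono le_rfl ih

theorem F_map {M N : Type} [AddCommGroup M] [Module A M] [AddCommGroup N] [Module A N]
    (f : M →ₗ[A] N) (n : ℕ) (P : Submodule A M) : (F I n P).map f = F I n (P.map f) := by
  induction n with
  | zero => rfl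
  | succ n ih => show (I • F I n P).map f = I • F I n (P.map f); rw [Submodule.map_smul'', ih]

theorem smul_pi (d : ℕ) (K : Submodule A A) :
    I • (Submodule.pi Set.univ fun _ : Fin d => K) = Submodule.pi Set.univ fun _ : Fin d => I • K := by
  apply le_antisymm
  · rw [Submodule.smul_le]
    intro r hr v hv i _
    exact Submodule.smul_mem_smul hr (hv i trivial)
  · intro v hv
    rw [← Finset.univ_sum_single v]
    refine Submodule.sum_mem _ fun i _ => ?_
    have h1 : (Pi.single i (v i) : Fin d → A) ∈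
        (I • K).map (LinearMap.single A (fun _ : Fin d => A) i) :=
      ⟨v i, hv i trivial, rfl⟩
    rw [Submodule.map_smul''] at h1
    refine Submodule.smul_mono le_rfl ?_ h1
    rintro _ ⟨x, hx, rfl⟩ j _
    by_cases h : j = i
    · subst h; simpa using hx
    · simp [h]

theorem F_pi (d n : ℕ) : F I n (⊤ : Submodule A (Fin d → A)) =
    Submodule.pi Set.univ fun _ : Fin d => F I n (⊤ : Submodule A A) := by
  induction n with
  | zero => show ⊤ = Submodule.pi Set.univ fun _ : Fin d => (⊤ : Submodule A A); simp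
  | succ n ih => show I • F I n ⊤ = _; rw [ih, smul_pi]; rfl

theorem index_pi (d : ℕ) (K : Submodule A A) :
    (Submodule.pi Set.univ fun _ : Fin d => K).toAddSubgroup.index = K.toAddSubgroup.index ^ d := by
  have : (Submodule.pi Set.univ fun _ : Fin d => K).toAddSubgroup =
      AddSubgroup.pi Set.univ fun _ : Fin d => K.toAddSubgroup := by
    ext v; rfl
  rw [this, AddSubgroup.index_pi]
  simp

/-- the index of the filtration of the ring -/
noncomputable def a (n : ℕ) : ℕ := (F I n (⊤ : Submodule A A)).toAddSubgroup.index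

theorem index_F (d n : ℕ) :
    (F I n (⊤ : Submodule A (Fin d → A))).toAddSubgroup.index = a I n ^ d := by
  rw [F_pi, index_pi]; rfl

theorem smul_top (h2 : ∀ x ∈ I, ∀ y, x * y ∈ I) : I • (⊤ : Submodule A A) = I := by
  apply le_antisymm
  · rw [Submodule.smul_le]
    intro r hr y _
    exact h2 r hr y
  · intro x hx
    have := Submodule.smul_mem_smul hx (Submodule.mem_top (x := (1 : A)))
    simpa using this

theorem F_le {M : Type} [AddCommGroup M] [Module A M] (n : ℕ) (P : Submodule A M) :
    F I n P ≤ P := by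
  induction n with
  | zero => exact le_rfl
  | succ n ih => exact Submodule.smul_le_right.trans ih

theorem key [Finite A] (d : ℕ) (φ : (Fin d → A) →ₗ[A] A) (ψ : (Fin 10 → A) →ₗ[A] Fin d → A)
    (hc : I.toAddSubgroup.index = 2) (h2 : ∀ x ∈ I, ∀ y, x * y ∈ I)
    (hr : LinearMap.range φ = I) (hk : LinearMap.ker φ ≤ I • ⊤)
    (hψ : LinearMap.range ψ = LinearMap.ker φ) (n : ℕ) :
    2 * a I (n + 1) ^ d ≤ a I (n + 2) * a I n ^ 10 := by
  set P : Submodule A (Fin d → A) := F I (n + 1) ⊤ with hP
  set J : Submodule A A := F I (n + 2) ⊤ with hJ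
  have hJ' : J = F I (n + 1) I := by rw [hJ, F_succ', smul_top I h2]
  have hmap : P.map φ = J := by rw [hP, F_map, Submodule.map_top, hr, hJ']
  have hcomap : J.comap φ = P ⊔ LinearMap.ker φ := by rw [← hmap, Submodule.comap_map_eq]
  have hle : F I n (⊤ : Submodule A (Fin 10 → A)) ≤ P.comap ψ := by
    rw [← Submodule.map_le_iff_le_comap, F_map, Submodule.map_top, hψ, hP, F_succ']
    exact F_mono I n hk
  -- index of the sum
  have e1 : (P ⊔ LinearMap.ker φ).toAddSubgroup.index * 2 = a I (n + 2) := by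
    have h1 : (J.comap φ).toAddSubgroup = J.toAddSubgroup.comap φ.toAddMonoidHom := rfl
    have h3 : φ.toAddMonoidHom.range = I.toAddSubgroup := by rw [← hr]; rfl
    have h4 : J.toAddSubgroup ≤ I.toAddSubgroup := by
      intro x hx
      rw [hJ'] at hx
      exact F_le I _ _ hx
    have h5 := AddSubgroup.relIndex_mul_index h4
    rw [hc] at h5
    rw [← hcomap, h1, AddSubgroup.index_comap, h3]
    exact h5
  have e2 : P.toAddSubgroup.relIndex (P ⊔ LinearMap.ker φ).toAddSubgroup *
      (P ⊔ LinearMap.ker φ).toAddSubgroup.index = a I (n + 1) ^ d := by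
    rw [← index_F]
    apply AddSubgroup.relIndex_mul_index
    intro x hx
    exact (le_sup_left : P ≤ P ⊔ LinearMap.ker φ) hx
  have e3 : P.toAddSubgroup.relIndex (P ⊔ LinearMap.ker φ).toAddSubgroup ≤ a I n ^ 10 := by
    rw [Submodule.sup_toAddSubgroup, AddSubgroup.relIndex_sup_left, ← hψ]
    have h3 : (LinearMap.range ψ).toAddSubgroup = ψ.toAddMonoidHom.range := rfl
    rw [h3, ← AddSubgroup.index_comap, ← index_F]
    refine Nat.le_of_dvd (Nat.pos_of_ne_zero AddSubgroup.index_ne_zero_of_finite) ?_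
    apply AddSubgroup.index_dvd_of_le
    intro x hx
    exact hle hx
  rw [← e1, ← e2]
  nlinarith [Nat.mul_le_mul_right ((P ⊔ LinearMap.ker φ).toAddSubgroup.index * 2) e3]

theorem a_pos [Finite A] (n : ℕ) : 0 < a I n :=
  Nat.pos_of_ne_zero AddSubgroup.index_ne_zero_of_finite

theorem a_le [Finite A] (n : ℕ) : a I n ≤ Nat.card A :=
  Nat.le_of_dvd Nat.card_pos (AddSubgroup.index_dvd_card _)

theorem main [Finite A] (d : ℕ) (φ : (Fin d → A) →ₗ[A] A) (ψ : (Fin 10 → A) →ₗ[A] Fin d → A)
    (hd : 7 ≤ d) (hc : I.toAddSubgroup.index = 2) (h2 : ∀ x ∈ I, ∀ y, x * y ∈ I)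
    (hr : LinearMap.range φ = I) (hk : LinearMap.ker φ ≤ I • ⊤)
    (hψ : LinearMap.range ψ = LinearMap.ker φ) : False := by
  have h0 : a I 0 = 1 := by
    show (⊤ : Submodule A A).toAddSubgroup.index = 1
    simp
  have h1 : a I 1 = 2 := by
    show (I • (⊤ : Submodule A A)).toAddSubgroup.index = 2
    rw [smul_top I h2, hc]
  have hg : ∀ n, 2 * a I n ^ 2 ≤ a I (n + 1) := by
    intro n
    induction n with
    | zero => rw [h0, h1]; norm_num
    | succ n ih =>
      have k := key I d φ ψ hc h2 hr hk hψ n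
      have p0 := a_pos I n
      have p1 := a_pos I (n + 1)
      have e7 : a I (n + 1) ^ 7 ≤ a I (n + 1) ^ d := Nat.pow_le_pow_right p1 hd
      have e5 : (a I n ^ 2) ^ 5 ≤ a I (n + 1) ^ 5 := Nat.pow_le_pow_left (by omega) 5
      have e : 2 * a I (n + 1) ^ 2 * a I n ^ 10 ≤ a I (n + 2) * a I n ^ 10 := by
        calc 2 * a I (n + 1) ^ 2 * a I n ^ 10 = 2 * a I (n + 1) ^ 2 * (a I n ^ 2) ^ 5 := by ring
          _ ≤ 2 * a I (n + 1) ^ 2 * a I (n + 1) ^ 5 := Nat.mul_le_mul_left _ e5
          _ = 2 * a I (n + 1) ^ 7 := by ring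
          _ ≤ 2 * a I (n + 1) ^ d := by omega
          _ ≤ _ := k
      exact Nat.le_of_mul_le_mul_right e (pow_pos p0 10)
  have hn : ∀ n, n < a I n := by
    intro n
    induction n with
    | zero => omega
    | succ n ih =>
      have := hg n
      nlinarith
  have := hn (Nat.card A)
  have := a_le I (Nat.card A)
  omega

end FIL

theorem t_FIL : S_FIL := by
  intro A _ _ I d φ ψ _ hd hc h2 hr hk hψ
  exact FIL.main I d φ ψ hd hc h2 hr hk hψ

end Pool.Agent.P.MP_657a03_nt.GS
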