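import Pool.Agent.P.MP_657a03_nt.GS.If

/-! Proof of GEN. -/

set_option autoImplicit false

namespace Pool.Agent.P.MP_657a03_nt.GS

open Pool.Agent.P.MP_8b7eba_nt.R2

namespace GEN

variable {G : Type} [Group G]

theorem cases (s : ZMod 2) : s = 0 ∨ s = 1 := by revert s; decide

theorem mem (g : G) : MonoidAlgebra.of (ZMod 2) G g - 1 ∈ aug G := Ideal.subset_span ⟨g, rfl⟩

theorem ex (a : GA G) : ∃ c : ZMod 2, a - c • 1 ∈ aug G := by
  induction a using MonoidAlgebra.induction_on with
  | of g => exact ⟨1, by simpa only [one_smul] using mem g⟩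
  | add x y hx hy =>
    obtain ⟨c, h⟩ := hx
    obtain ⟨c', h'⟩ := hy
    exact ⟨c + c', by rw [add_smul, add_sub_add_comm]; exact add_mem h h'⟩
  | smul r x hx =>
    obtain ⟨c, h⟩ := hx
    exact ⟨r * c, by rw [mul_smul, ← smul_sub]; exact Submodule.smul_of_tower_mem _ r h⟩

theorem dich (a : GA G) : a ∈ aug G ∨ 1 - a ∈ aug G := by
  obtain ⟨c, h⟩ := ex a
  rcases cases c with rfl | rfl
  · exact Or.inl (by simpa using h)
  · exact Or.inr (by simpa using neg_mem h)

theorem inv {V : Type} [AddCommGroup V] [Module (ZMod 2) V] {χ : G → V}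
    (hχ : ∀ g h, χ (g * h) = χ g + χ h) (L : GA G →ₗ[ZMod 2] V)
    (hL : ∀ g, L (MonoidAlgebra.of (ZMod 2) G g) = χ g) {x : GA G} (hx : x ∈ aug G) (g : G) :
    L (MonoidAlgebra.of (ZMod 2) G g * x) = L x := by
  induction hx using Submodule.span_induction generalizing g with
  | mem y hy =>
    obtain ⟨h, rfl⟩ := hy
    have h1 : χ 1 = 0 := by simpa using hχ 1 1
    rw [mul_sub, ← map_mul, mul_one, map_sub, map_sub, ← map_one (MonoidAlgebra.of (ZMod 2) G),
      hL, hL, hL, hL, hχ, h1]
    abel
  | zero => rw [mul_zero]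
  | add y z _ _ hy hz => rw [mul_add, map_add, map_add, hy, hz]
  | smul b y _ hy =>
    rw [smul_eq_mul]
    induction b using MonoidAlgebra.induction_on with
    | of h => rw [← mul_assoc, ← map_mul, hy, hy]
    | add a b ha hb => rw [add_mul, mul_add, map_add, map_add, ha, hb]
    | smul r a ha => rw [smul_mul_assoc, mul_smul_comm, map_smul, map_smul, ha]

theorem seven {χ : G → Fin 7 → ZMod 2} (hχ : Sur χ) {d : ℕ} {x : Fin d → GA G}
    (hx : Submodule.span (GA G) (Set.range x) = aug G) : 7 ≤ d := by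
  let L : GA G →ₗ[ZMod 2] Fin 7 → ZMod 2 := (MonoidAlgebra.basis G (ZMod 2)).constr (ZMod 2) χ
  have hL : ∀ g, L (MonoidAlgebra.of (ZMod 2) G g) = χ g := fun g =>
    (MonoidAlgebra.basis G (ZMod 2)).constr_basis (ZMod 2) χ g
  have m : ∀ j, x j ∈ aug G := fun j => hx ▸ Submodule.subset_span ⟨j, rfl⟩
  have h1 : ∀ j a, L (a * x j) ∈ Submodule.span (ZMod 2) (Set.range fun j => L (x j)) := by
    intro j a
    induction a using MonoidAlgebra.induction_on with
    | of g => rw [inv hχ.1 L hL (m j)]; exact Submodule.subset_span ⟨j, rfl⟩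
    | add a b ha hb => rw [add_mul, map_add]; exact add_mem ha hb
    | smul r a ha => rw [smul_mul_assoc, map_smul]; exact Submodule.smul_mem _ r ha
  have h2 : Submodule.span (ZMod 2) (Set.range fun j => L (x j)) = ⊤ := by
    refine eq_top_iff.2 fun v _ => ?_
    obtain ⟨g, rfl⟩ := hχ.2 v
    obtain ⟨a, ha⟩ := (Submodule.mem_span_range_iff_exists_fun _).1 (hx ▸ mem g)
    have h0 : χ 1 = 0 := by simpa using hχ.1 1 1
    have : L (∑ j, a j • x j) = χ g := by
      rw [ha, map_sub, ← map_one (MonoidAlgebra.of (ZMod 2) G), hL, hL, h0, sub_zero]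
    rw [← this, map_sum]
    exact Submodule.sum_mem _ fun j _ => h1 j (a j)
  have := finrank_range_le_card (R := ZMod 2) fun j => L (x j)
  rwa [Set.finrank, h2, finrank_top, Module.finrank_fin_fun, Fintype.card_fin] at this

end GEN

theorem t_GEN (hN : S_NAK) : S_GEN := by
  intro G _ _ hG χ hχ
  classical
  have hf : Finite (GA G) := Finite.of_equiv _
    (MonoidAlgebra.coeffEquiv.trans Finsupp.equivFunOnFinite).symm
  have h0 : ∃ d, ∃ x : Fin d → GA G, Submodule.span (GA G) (Set.range x) = aug G :=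
    Submodule.fg_iff_exists_fin_generating_family.1 (Submodule.fg_span (Set.finite_range _))
  obtain ⟨x, hx⟩ := Nat.find_spec h0
  have hmin := fun d => Nat.find_min h0 (m := d)
  generalize Nat.find h0 = d at x hx hmin
  refine ⟨d, Fintype.linearCombination _ x, GEN.seven hχ hx,
    (Fintype.range_linearCombination _ x).trans hx, fun v hv => ?_⟩
  rw [LinearMap.mem_ker, Fintype.linearCombination_apply] at hv
  have h1 : ∀ j, v j ∈ aug G := fun j => by
    refine (GEN.dich (v j)).resolve_right fun h => ?_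
    obtain ⟨d, rfl⟩ : ∃ e, d = e + 1 := ⟨d - 1, by have := j.pos; omega⟩
    have m : ∀ i, x i ∈ aug G := fun i => hx ▸ Submodule.subset_span ⟨i, rfl⟩
    refine hmin d d.lt_succ_self ⟨fun i => x (j.succAbove i), le_antisymm
      (Submodule.span_le.2 (Set.range_subset_iff.2 fun i => m _)) ?_⟩
    rw [← Submodule.comap_subtype_eq_top]
    refine hN G hG (aug G) _ (Submodule.map_injective_of_injective (aug G).injective_subtype ?_)
    rw [Submodule.map_sup, Submodule.map_smul'', Submodule.map_subtype_top,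
      Submodule.map_comap_subtype]
    refine le_antisymm (sup_le inf_le_left Submodule.smul_le_right) (hx.ge.trans
      (Submodule.span_le.2 (Set.range_subset_iff.2 fun i => ?_)))
    have s : ∀ i, x (j.succAbove i) ∈ aug G ⊓ Submodule.span (GA G)
      (Set.range fun i => x (j.succAbove i)) := fun i => ⟨m _, Submodule.subset_span ⟨i, rfl⟩⟩
    refine Fin.succAboveCases j ?_ (fun i => Submodule.mem_sup_left (s i)) i
    rw [Fin.sum_univ_succAbove _ j, add_eq_zero_iff_eq_neg] at hv
    rw [show x j = v j • x j + (1 - v j) • x j by rw [← add_smul, add_sub_cancel, one_smul], hv]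
    exact Submodule.add_mem_sup (neg_mem (Submodule.sum_mem _ fun i _ =>
      Submodule.smul_mem _ _ (s i))) (Submodule.smul_mem_smul h (m j))
  rw [pi_eq_sum_univ' v]
  exact Submodule.sum_mem _ fun j _ => Submodule.smul_mem_smul (h1 j) trivial

end Pool.Agent.P.MP_657a03_nt.GS
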