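import Pool.Agent.P.MP_657a03_nt.GS.If

/-! Proof of GSF. -/

set_option autoImplicit false

namespace Pool.Agent.P.MP_657a03_nt.GS

open Pool.Agent.P.MP_8b7eba_nt.R2

namespace GSF

/-- few generators modulo `W`, or many independent forms vanishing on `W` -/
theorem dich {K R : Type} [Field K] [AddCommGroup R] [Module K R] [Module.Finite K R]
    (W : Submodule K R) (n : ℕ) :
    (∃ y : Fin n → R, W ⊔ Submodule.span K (Set.range y) = ⊤) ∨
      ∃ l : Fin (n + 1) → R →ₗ[K] K, (∀ i, ∀ x ∈ W, l i x = 0) ∧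
        ∀ c : Fin (n + 1) → K, ∑ i, c i • l i = 0 → c = 0 := by
  rcases le_or_gt (Module.finrank K (R ⧸ W)) n with h | h
  · let b := Module.finBasis K (R ⧸ W)
    choose s hs using W.mkQ_surjective
    refine Or.inl ⟨fun i => if hi : (i : ℕ) < Module.finrank K (R ⧸ W) then s (b ⟨i, hi⟩) else 0,
      ?_⟩
    rw [← Submodule.map_mkQ_eq_top, eq_top_iff, ← b.span_eq, Submodule.span_le]
    rintro _ ⟨j, rfl⟩
    exact ⟨s (b j), Submodule.subset_span ⟨j.castLE h, by simp⟩, hs _⟩
  · obtain ⟨f, hf⟩ := exists_linearIndependent_of_le_finrank (R := K) (M := Module.Dual K (R ⧸ W))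
      (n := n + 1) (by rwa [Subspace.dual_finrank_eq])
    refine Or.inr ⟨fun i => (f i).comp W.mkQ, fun i x hx => ?_, fun c hc => ?_⟩
    · simp [(Submodule.Quotient.mk_eq_zero W).2 hx]
    · refine funext (Fintype.linearIndependent_iff.1 hf c (LinearMap.ext fun v => ?_))
      obtain ⟨x, rfl⟩ := W.mkQ_surjective v
      simpa using LinearMap.congr_fun hc x

variable (G : Type) [Group G]

/-- the augmentation -/
noncomputable def ep : GA G →ₐ[ZMod 2] ZMod 2 := MonoidAlgebra.lift (ZMod 2) (ZMod 2) G 1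

theorem mem_aug (g : G) : MonoidAlgebra.of (ZMod 2) G g - 1 ∈ aug G :=
  Ideal.subset_span (Set.mem_range_self g)

theorem smul_mem {M : Type} [AddCommGroup M] [Module (GA G) M] (g : G) (x : M) :
    MonoidAlgebra.of (ZMod 2) G g • x - x ∈ (aug G • ⊤ : Submodule (GA G) M) := by
  have := Submodule.smul_mem_smul (mem_aug G g) (Submodule.mem_top (x := x))
  rwa [sub_smul, one_smul] at this

theorem aug_eq : aug G = RingHom.ker (ep G).toRingHom := by
  refine le_antisymm (Ideal.span_le.2 ?_) fun x hx => ?_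
  · rintro _ ⟨g, rfl⟩
    simp [ep, RingHom.mem_ker]
  · have : x - ep G x • 1 ∈ aug G := by
      clear hx
      induction x using MonoidAlgebra.induction_on with
      | of g =>
        rw [ep, MonoidAlgebra.lift_of, MonoidHom.one_apply, one_smul]
        exact mem_aug G g
      | add x y hx hy =>
        rw [map_add, add_smul, add_sub_add_comm]
        exact add_mem hx hy
      | smul r x hx =>
        rw [map_smul, smul_assoc, ← smul_sub]
        exact Submodule.smul_of_tower_mem _ r hx
    rwa [show ep G x = 0 from hx, zero_smul, sub_zero] at this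

theorem card : Nat.card (GA G ⧸ aug G) = 2 := by
  rw [aug_eq]
  exact (Nat.card_congr (RingHom.quotientKerEquivOfSurjective
    (ZMod.ringHom_surjective (ep G).toRingHom)).toEquiv).trans (Nat.card_zmod 2)

end GSF

theorem t_GS (hN : S_NAK) (hG : S_GEN) (hF : S_FIL) (hC : S_COC) : S_GS := by
  intro G _ _ hp χ hχ
  obtain ⟨d, φ, hd, h1, h2⟩ := hG G hp χ hχ
  obtain ⟨c, c1, c2, c3, c4⟩ := hC G d φ h1 h2
  have : Finite (GA G) := Module.finite_of_finite (ZMod 2)
  rcases GSF.dich ((aug G • ⊤ : Submodule (GA G) (LinearMap.ker φ)).restrictScalars (ZMod 2)) 10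
    with ⟨y, hy⟩ | ⟨l, hl, hi⟩
  · have h3 : Submodule.span (GA G) (Set.range y) = ⊤ := by
      refine hN G hp _ _ (eq_top_iff.2 fun x _ => ?_)
      obtain ⟨a, ha, b, hb, rfl⟩ := Submodule.mem_sup.1 (hy.ge (Submodule.mem_top (x := x)))
      exact add_mem (Submodule.mem_sup_right ha)
        (Submodule.mem_sup_left (Submodule.span_subset_span (ZMod 2) _ _ hb))
    refine (hF (GA G) (aug G) d φ
      ((LinearMap.ker φ).subtype.comp (Fintype.linearCombination (GA G) y)) ?_ hd ?_ ?_ h1 h2
      ?_).elim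
    · rw [GSF.aug_eq]
      exact RingHom.ker_ne_top _
    · exact GSF.card G
    · rw [GSF.aug_eq]
      exact fun x hx a => Ideal.mul_mem_right a _ hx
    · rw [LinearMap.range_comp, Fintype.range_linearCombination, h3, Submodule.map_top,
        Submodule.range_subtype]
  · have inv : ∀ i (g : G) x, l i (MonoidAlgebra.of (ZMod 2) G g • x) = l i x := fun i g x => by
      have h4 := hl i _ ((Submodule.restrictScalars_mem _ _ _).2 (GSF.smul_mem G g x))
      rwa [map_sub, sub_eq_zero] at h4
    refine ⟨fun i g h => l i (c g h), fun i => ⟨fun g => by simp [c1], fun g => by simp [c2],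
      fun g h k => ?_⟩, fun a ⟨θ, hθ⟩ => hi a ?_⟩
    · simp only [← map_add, ← c3]
      rw [map_add, map_add, inv]
    · have := c4 (∑ i, a i • l i).toAddMonoidHom (fun g x => by simp [inv, -MonoidAlgebra.of_apply])
        ⟨θ, fun g h => by simpa using hθ g h⟩
      exact LinearMap.ext fun x => DFunLike.congr_fun this x

end Pool.Agent.P.MP_657a03_nt.GS
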