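import Pool.Agent.P.MP_657a03_nt.GS.If
import Pool.Agent.P.MP_8b7eba_nt.R2.LC
import Pool.Agent.P.MP_8b7eba_nt.R2.TUNR

/-! Proof of LIFT. -/

set_option autoImplicit false

namespace Pool.Agent.P.MP_657a03_nt.GS

open Pool.Agent.P.MP_8b7eba_nt.R2

namespace LIFT

/-- quadratic characters of the decomposition group at two, restricted to inertia -/
theorem loc (hA : CA) {w : Pl} (h2 : w.p = 2) {α : GQ → ZMod 2} (h : IsCh w.D α) :
    ∃ a b : ℕ, ∀ g ∈ w.I, α g = qz ((-1) ^ a * 2 ^ b) g := by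
  by_cases h0 : ∀ g ∈ w.D, α g = 0
  · exact ⟨0, 0, fun g hg => by simpa [qz_one] using h0 g hg.1⟩
  obtain ⟨t, ht, ht'⟩ : ∃ t ∈ w.D, α t ≠ 0 := by simpa using h0
  obtain ⟨U, hU, hk⟩ := h.exists_ker
  have r2 : U.relIndex w.D = 2 := by
    have e : α '' w.D = Set.univ := Set.eq_univ_of_forall fun a => by
      rcases LA.cases a with rfl | rfl
      exacts [⟨1, w.D.one_mem, h.one⟩, ⟨t, ht, (LA.cases _).resolve_left ht'⟩]
    rw [← Subgroup.inf_relIndex_left, hk.relIndex h, e, Set.ncard_univ, Nat.card_zmod]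
  obtain ⟨β, hb, hf, hm⟩ := (hA.gal _ w.closed_D).2.2.2.1 U hU r2
  obtain ⟨a, b, c, x, hx, e⟩ := (hA.sq2 w).2.2.2.1 h2 _ hf (pow_ne_zero 2 hb)
  have e1 : (x / β) ^ 2 = (((-1) ^ a * 2 ^ b * 5 ^ c : ℤ) : Om) := by
    rw [div_pow, ← e]
    push_cast
    field_simp
  have x0 : x ≠ 0 := fun e0 => LA.ne e1 (by positivity) (by simp [e0])
  refine ⟨a, b, fun g hg => LA.ext ?_⟩
  have e2 := qz_I_two h2 (m := 5 ^ c) (by
    simpa [Int.ModEq] using Int.ModEq.pow c (show 5 ≡ 1 [ZMOD 4] by decide)) hg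
  have e3 := congrFun (qz_mul (m := (-1) ^ a * 2 ^ b) (n := 5 ^ c) (by positivity)
    (by positivity)) g
  rw [Pi.add_apply, e2, add_zero] at e3
  rw [← e3, qz_eq_zero e1, map_div₀, hx g hg.1, div_eq_mul_inv, div_eq_mul_inv,
    mul_right_inj' x0, inv_inj,
    show α g = 0 ↔ g ∈ U from ⟨fun e => ((hk g).2 ⟨hg.1, e⟩).2, fun e => ((hk g).1 ⟨hg.1, e⟩).2⟩]
  refine ⟨(hm g hg.1).1, fun e => by_contra fun e' => ?_⟩
  rw [(hm g hg.1).2 e'] at e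
  exact hb (neg_eq_self.1 e)

/-- the restriction of a solution to inertia extends to a character -/
theorem ext (hA : CA) {w : Pl} {N : Subgroup GQ} {κ : GQ → GQ → ZMod 2} {θ : GQ → ZMod 2}
    (hN : ON N) (hI : w.I ≤ N) (h1 : κ 1 1 = 0)
    (hκ : ∀ g h, ∀ n ∈ N, κ (g * n) h = κ g h ∧ κ g (h * n) = κ g h) (hθ : Bd ⊤ κ θ) :
    ∃ α, IsCh w.D α ∧ ∀ g ∈ w.I, α g = θ g := by
  obtain ⟨N', a1, a2⟩ := hθ.1
  obtain ⟨φ, -, hφ⟩ := TUNR.deg hA.frob w.loc_D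
  obtain ⟨M, m0, hM⟩ := a1.exists_pow φ
  obtain ⟨χ, c1, c2, -, c3⟩ := hφ M m0.ne'
  have per : ∀ m : ℕ, θ (φ ^ (m : ZMod M).val) = θ (φ ^ m) := fun m => by
    rw [ZMod.val_natCast, ← a2 _ trivial _ trivial (pow_mem hM (m / M)), ← pow_mul, ← pow_add,
      Nat.mod_add_div]
  refine ⟨fun g => θ g + θ (φ ^ (χ g).val), ⟨(hθ.1.mono le_top).comp₂ c1.1
    fun a b => a + θ (φ ^ b.val), fun g hg h hh => ?_⟩, fun g hg => ?_⟩
  · obtain ⟨a, i, hi, n, hn, e, ea⟩ := c3 N hN g hg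
    obtain ⟨b, j, hj, l, hl, e', eb⟩ := c3 N hN h hh
    have k : κ g h = κ (φ ^ a) (φ ^ b) := by
      rw [e, e', (hκ _ _ n hn.1).1, (hκ _ _ i (hI hi.1)).1, (hκ _ _ l hl.1).2,
        (hκ _ _ j (hI hj.1)).2]
    beta_reduce
    rw [c1.2 g hg h hh, ea, eb, ← Nat.cast_add, per, per, per, pow_add,
      hθ.2 _ trivial _ trivial, hθ.2 _ trivial _ trivial, k]
    linear_combination CharTwo.add_self_eq_zero (κ (φ ^ a) (φ ^ b))
  · have := hθ.2 1 trivial 1 trivial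
    rw [one_mul, h1, add_zero, left_eq_add] at this
    simp [c2 g ⟨hg, hg.1⟩, this]

end LIFT

open LIFT in
theorem t_LIFT (hA : CA) (hG : GTH) : S_LIFT := by
  intro N κ hN hU ⟨k1, k2, k3⟩ hκ hb hr
  have kI : ∀ i ∈ N, ∀ g, κ g i = 0 ∧ κ i g = 0 := fun i hi g =>
    ⟨by simpa [k2] using (hκ g 1 i hi).2, by simpa [k1] using (hκ 1 g i hi).1⟩
  have co : Co2 ⊤ (sgn κ) :=
    co2_sgn.2 ⟨⟨N, hN, fun g _ h _ n _ hn => hκ g h n hn⟩, fun g _ h _ k _ => k3 g h k⟩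
  have dv : ∀ p : ℕ, p.Prime → ((p : ℤ) ∣ 2 * ∏ l ∈ SS, l ↔ p = 2 ∨ p ∈ SS) := fun p hp => by
    rw [← Nat.cast_ofNat (R := ℤ), ← Nat.cast_mul, Int.natCast_dvd_natCast, hp.dvd_mul,
      Nat.prime_dvd_prime_iff_eq hp Nat.prime_two, hp.prime.dvd_finsetProd_iff]
    refine or_congr_right ⟨fun ⟨l, a, b⟩ => ?_, fun h => ⟨p, h, dvd_rfl⟩⟩
    rwa [(Nat.prime_dvd_prime_iff_eq hp ((by decide : ∀ l ∈ SS, l.Prime) l a)).1 b]
  obtain ⟨w₀, h₀⟩ := hA.pl.1 2 Nat.prime_two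
  have i₀ := hU w₀ (by rw [h₀]; decide)
  obtain ⟨θ, t1, t2⟩ := hG (2 * ∏ l ∈ SS, l) κ (by decide) (dvd_mul_right _ _) co
    (fun w hw i hi => kI i (hU w (fun h => hw ((dv _ w.prime).2 (Or.inr h))) hi))
    (fun p hp h => ((dv p hp).1 h).elim (fun e => ⟨w₀, h₀.trans e.symm, hA.unr w₀ _ w₀.loc_D 1 _
      (co.mono le_top) (fun g _ h _ => congrFun (congrFun (sgn_sq κ) g) h) fun g _ h _ i hi =>
        ⟨by rw [sgn, (hκ g h i (i₀ hi.1)).1, sgn], by rw [sgn, (hκ g h i (i₀ hi.1)).2, sgn],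
          by rw [sgn, map_pow, map_neg, map_one]⟩⟩) (hb p))
    (by
      have : ∀ g ∈ Subgroup.zpowers tau, g = 1 ∨ g = tau := fun g hg => by
        obtain ⟨k, rfl⟩ := Subgroup.mem_zpowers_iff.1 hg
        have h2 : tau ^ (2 : ℤ) = 1 := by rw [zpow_two, hA.tau.2.1]
        rcases Int.even_or_odd' k with ⟨m, rfl | rfl⟩
        · left; rw [zpow_mul, h2, one_zpow]
        · right; rw [zpow_add, zpow_mul, h2, one_zpow, one_mul, zpow_one]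
      intro g hg h hh
      rcases this g hg with rfl | rfl
      · exact k1 h
      rcases this h hh with rfl | rfl
      exacts [k2 _, hr])
  obtain ⟨α, c1, c2⟩ := ext hA hN i₀ (k1 1) hκ t1
  obtain ⟨a, b, c3⟩ := loc hA h₀ c1
  have c4 := isCh_qz (H := ⊤) ((-1) ^ a * 2 ^ b)
  refine ⟨fun g => θ g + qz ((-1) ^ a * 2 ^ b) g, ⟨t1.1.comp₂ c4.1 (· + ·), fun g hg h hh => ?_⟩,
    fun w hw i hi => ?_⟩
  · beta_reduce
    rw [t1.2 g hg h hh, c4.2 g hg h hh]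
    ring
  beta_reduce
  by_cases h2 : w.p = 2
  · obtain ⟨σ, rfl⟩ := hA.pl.2.1 w w₀ (h2.trans h₀.symm)
    have hj : σ * i * σ⁻¹ ∈ (σ • w).I := Pl.mem_I_smul.2 (by simpa [mul_assoc] using hi)
    have h1 := t1.2 σ trivial i trivial
    have h3 := t1.2 (σ * i * σ⁻¹) trivial σ trivial
    rw [inv_mul_cancel_right, h1, (kI i (hU w hw hi) σ).1, (kI _ (i₀ hj) σ).2, add_zero, add_zero,
      add_comm, add_left_inj] at h3
    rw [h3, ← c2 _ hj, c3 _ hj, qz_conj]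
    exact CharTwo.add_self_eq_zero _
  · rw [t2 w (fun h => ((dv _ w.prime).1 h).elim h2 hw) i hi, zero_add]
    refine qz_I hA (fun h => h2 ?_) hi
    have h3 : w.p ∣ 2 ^ (b + 1) := by
      simpa [Int.natAbs_mul, Int.natAbs_pow, pow_succ'] using Int.natCast_dvd.1 h
    exact (Nat.prime_dvd_prime_iff_eq w.prime Nat.prime_two).1 (w.prime.dvd_of_dvd_pow h3)

end Pool.Agent.P.MP_657a03_nt.GS
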