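import Pool.Agent.P.MP_657a03_nt.GS.If

/-! Proof of NAK. -/

set_option autoImplicit false

namespace Pool.Agent.P.MP_657a03_nt.GS

open Pool.Agent.P.MP_8b7eba_nt.R2

namespace NAK

theorem simple (G : Type) [Group G] [Finite G] (hG : IsPGroup 2 G) (S : Type) [AddCommGroup S]
    [Module (GA G) S] [Finite S] [IsSimpleModule (GA G) S] (g : G) (x : S) :
    MonoidAlgebra.of (ZMod 2) G g • x = x := by
  have := IsSimpleModule.nontrivial (GA G) S
  let _ : MulAction G S := MulAction.compHom S (MonoidAlgebra.of (ZMod 2) G)
  have h2 : 2 ∣ Nat.card S := by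
    obtain ⟨y, hy⟩ := exists_ne (0 : S)
    have h0 : (1 : GA G) + 1 = 0 := by
      rw [← map_one (algebraMap (ZMod 2) (GA G)), ← map_add]
      exact (congrArg _ (by decide)).trans (map_zero _)
    have : 2 • y = 0 := by
      rw [two_smul, ← one_smul (GA G) y, ← add_smul, h0, zero_smul]
    exact addOrderOf_eq_prime this hy ▸ addOrderOf_dvd_natCard y
  obtain ⟨b, hb, hb0⟩ := hG.exists_fixed_point_of_prime_dvd_card_of_fixed_point S h2
    (a := 0) fun g => smul_zero (MonoidAlgebra.of (ZMod 2) G g)
  let F : Submodule (GA G) S :=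
    { carrier := {x | ∀ g : G, MonoidAlgebra.of (ZMod 2) G g • x = x}
      add_mem' := fun {x y} hx hy g => by rw [smul_add, hx g, hy g]
      zero_mem' := fun g => smul_zero _
      smul_mem' := fun a x hx g => by
        induction a using MonoidAlgebra.induction_on with
        | of h => rw [hx h, hx g]
        | add a b ha hb => rw [add_smul, smul_add, ha, hb]
        | smul r a ha =>
          rw [← mul_smul, mul_smul_comm]
          have hr : r = 0 ∨ r = 1 := by revert r; decide
          rcases hr with rfl | rfl
          · simp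
          · rw [one_smul, one_smul, mul_smul, ha] }
  rcases eq_bot_or_eq_top F with h | h
  · have : b ∈ F := hb
    rw [h] at this
    exact absurd (Submodule.mem_bot _ |>.1 this).symm hb0
  · have : x ∈ F := h ▸ Submodule.mem_top
    exact this g

end NAK

theorem t_NAK : S_NAK := by
  intro G _ _ hG M _ _ _ P hP
  rcases eq_top_or_exists_le_coatom P with h | ⟨Q, hQ, hPQ⟩
  · exact h
  have := isSimpleModule_iff_isCoatom.2 hQ
  have : Finite (M ⧸ Q) := Finite.of_surjective _ Q.mkQ_surjective
  refine absurd (top_le_iff.1 (hP ▸ sup_le hPQ (Submodule.smul_le.2 fun a ha x _ => ?_))) hQ.1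
  rw [← Submodule.Quotient.mk_eq_zero, Submodule.Quotient.mk_smul]
  induction ha using Submodule.span_induction with
  | mem a h =>
    obtain ⟨g, rfl⟩ := h
    rw [sub_smul, NAK.simple G hG, one_smul, sub_self]
  | zero => exact zero_smul _ _
  | add a b _ _ ha hb => rw [add_smul, ha, hb, add_zero]
  | smul a b _ hb => rw [smul_eq_mul, mul_smul, hb, smul_zero]

end Pool.Agent.P.MP_657a03_nt.GS
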