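import Pool.Agent.P.MP_657a03_nt.GS.If
import Pool.Agent.P.MP_8b7eba_nt.R2.LC

/-! Proof of SEL. -/

set_option autoImplicit false

namespace Pool.Agent.P.MP_657a03_nt.GS

open Pool.Agent.P.MP_8b7eba_nt.R2

theorem t_SEL (hA : CA) (hL : S_LIFT) : S_SEL := by
  classical
  intro p N κ hp hS hN hU hP hc hi
  obtain ⟨k, hk⟩ : ∃ k : (Fin 11 → ZMod 2) → GQ → GQ → ZMod 2, ∀ c, k c = ∑ i, c i • κ i :=
    ⟨_, fun _ => rfl⟩
  have ap : ∀ c g h, k c g h = ∑ i, c i * κ i g h := fun c g h => by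
    simp only [hk, Finset.sum_apply, Pi.smul_apply, smul_eq_mul]
  have ka : ∀ c c', k (c + c') = k c + k c' := fun c c' => by
    simp only [hk, Pi.add_apply, add_smul, Finset.sum_add_distrib]
  have kc : ∀ c, Coc (k c) := fun c =>
    ⟨fun g => by simp only [ap, (hc _).1, mul_zero, Finset.sum_const_zero],
      fun g => by simp only [ap, (hc _).2.1, mul_zero, Finset.sum_const_zero],
      fun g h l => by simp only [ap, ← Finset.sum_add_distrib, ← mul_add, (hc _).2.2]⟩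
  have ki : ∀ c g h, ∀ n ∈ N, k c (g * n) h = k c g h ∧ k c g (h * n) = k c g h :=
    fun c g h n hn => ⟨by simp only [ap, (hi _ g h n hn).1], by simp only [ap, (hi _ g h n hn).2]⟩
  have k2 : ∀ c, Co2 ⊤ (sgn (k c)) := fun c => co2_sgn.2
    ⟨⟨N, hN, fun g _ h _ n _ hn => ki c g h n hn⟩, fun g _ h _ l _ => (kc c).2.2 g h l⟩
  have k0 : ∀ c g, ∀ n ∈ N, k c n g = 0 ∧ k c g n = 0 := fun c g n hn => by
    have h1 := (ki c 1 g n hn).1
    have h2 := (ki c g 1 n hn).2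
    rw [one_mul] at h1 h2
    exact ⟨h1.trans ((kc c).1 g), h2.trans ((kc c).2.1 g)⟩
  choose w hw using fun l : SS => hA.pl.1 l (by revert l; decide)
  obtain ⟨y, hy⟩ := Fintype.exists_lt_card_fiber_of_mul_lt_card
    (fun c : Fin 11 → ZMod 2 => ((fun l : SS => Triv (w l).D (sgn (k c))), k c tau tau)) (n := 2)
    (by
      rw [Fintype.card_prod, Fintype.card_fun, Fintype.card_fun, Fintype.card_prop, ZMod.card,
        Fintype.card_coe, Fintype.card_fin, show SS.card = 8 from rfl]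
      norm_num)
  have key : ∀ c c' : Fin 11 → ZMod 2,
      ((fun l : SS => Triv (w l).D (sgn (k c))), k c tau tau) = y →
      ((fun l : SS => Triv (w l).D (sgn (k c'))), k c' tau tau) = y →
      ∃ θ, Bd ⊤ (k (c + c')) θ ∧ ∀ w : Pl, w.p ∉ SS → ∀ i ∈ w.I, θ i = 0 := fun c c' e e' => by
    obtain ⟨e1, e2⟩ := Prod.mk.inj (e.trans e'.symm)
    refine hL N _ hN hU (kc _) (ki _) (fun l hl => ⟨w ⟨l, hl⟩, hw _, ?_⟩) ?_
    · have e3 : Triv (w ⟨l, hl⟩).D (sgn (k c)) = Triv (w ⟨l, hl⟩).D (sgn (k c')) :=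
        congrFun e1 ⟨l, hl⟩
      rw [ka, sgn_add]
      by_cases h : Triv (w ⟨l, hl⟩).D (sgn (k c))
      · exact h.mul (e3 ▸ h)
      · exact (hA.die _ _ _ (Pl.loc_D _) ((k2 c).mono le_top) (sgn_sq _ ▸ Triv.one)).2 _
          ((k2 c').mono le_top) (sgn_sq _ ▸ Triv.one) h (e3 ▸ h)
    · rw [ka, Pi.add_apply, Pi.add_apply, e2]
      exact CharTwo.add_self_eq_zero _
  obtain ⟨c0, m0, c1, m1, c2, m2, n1, n2, n3⟩ := Finset.two_lt_card.1 hy
  obtain ⟨θ1, b1, u1⟩ := key c0 c1 (Finset.mem_filter.1 m0).2 (Finset.mem_filter.1 m1).2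
  obtain ⟨θ2, b2, u2⟩ := key c0 c2 (Finset.mem_filter.1 m0).2 (Finset.mem_filter.1 m2).2
  obtain ⟨w0, h0⟩ := hA.pl.1 p hp
  obtain ⟨φ, hφ⟩ := Pl.exists_frob hA.frob w0
  suffices h : ∃ c θ, c ≠ 0 ∧ Bd ⊤ (k c) θ ∧ (∀ w : Pl, w.p ∉ SS → ∀ i ∈ w.I, θ i = 0) ∧
      θ φ = 0 by
    obtain ⟨c, θ, h1, h2, h3, h4⟩ := h
    refine ⟨c, θ, h1, hk c ▸ h2, h3, fun v hv g hg => ?_⟩
    have h5 := ch_unr hA.frob (χ := θ) ⟨h2.1.mono le_top, fun g hg h _ => by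
      rw [h2.2 g trivial h trivial, (k0 c h g (hP w0 h0 hg)).1, add_zero]⟩ (h3 w0 (h0 ▸ hS)) hφ h4
    obtain ⟨σ, rfl⟩ := hA.pl.2.1 v w0 (hv.trans h0.symm)
    have hj : σ * g * σ⁻¹ ∈ (σ • v).D := Pl.mem_D_smul.2 (by simpa [mul_assoc] using hg)
    have h6 := h2.2 (σ * g * σ⁻¹) trivial σ trivial
    rw [inv_mul_cancel_right, h2.2 σ trivial g trivial, (k0 c σ g (hP v hv hg)).2,
      (k0 c σ _ (hP _ h0 hj)).1, add_zero, add_zero, add_comm, add_left_inj] at h6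
    exact h6.trans (h5 _ hj)
  by_cases z1 : θ1 φ = 0
  · exact ⟨_, θ1, fun e => n1 (CharTwo.add_eq_zero.1 e), b1, u1, z1⟩
  by_cases z2 : θ2 φ = 0
  · exact ⟨_, θ2, fun e => n2 (CharTwo.add_eq_zero.1 e), b2, u2, z2⟩
  refine ⟨c0 + c1 + (c0 + c2), fun g => θ1 g + θ2 g, fun e => n3 (add_left_cancel
    (CharTwo.add_eq_zero.1 e)), ⟨b1.1.comp₂ b2.1 (· + ·), fun g hg h hh => ?_⟩,
    fun v hv i hi => by simp only [u1 v hv i hi, u2 v hv i hi, add_zero], ?_⟩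
  · beta_reduce
    rw [ka, Pi.add_apply, Pi.add_apply, b1.2 g hg h hh, b2.2 g hg h hh]
    ring
  · beta_reduce
    revert z1 z2
    generalize θ1 φ = s
    generalize θ2 φ = t
    revert s t
    decide

end Pool.Agent.P.MP_657a03_nt.GS
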