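import Pool.Agent.P.MP_657a03_nt.GS.If
import Pool.Agent.P.MP_8b7eba_nt.R2.LC

/-! Proof of START. -/

set_option autoImplicit false

namespace Pool.Agent.P.MP_657a03_nt.GS

open Pool.Agent.P.MP_8b7eba_nt.R2

namespace START

/-- the primes -/
def q : Fin 8 → ℕ := ![3, 5, 7, 11, 13, 17, 19, 23]

/-- the prime discriminants -/
def m : Fin 8 → ℤ := ![-3, 5, -7, -11, 13, 17, -19, -23]

theorem q_prime (j : Fin 8) : (q j).Prime := by
  fin_cases j <;> simp only [q] <;> norm_num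

theorem m_abs : ∀ j, (m j).natAbs = q j := by decide

theorem m4 : ∀ j, m j % 4 = 1 := by decide

theorem q_mem : ∀ j, q j ∈ SS := by decide

theorem q_inj : ∀ i j, q i = q j → i = j := by decide

theorem q2 : ∀ j, q j ≠ 2 := by decide

theorem dvd {p : ℕ} (hp : p.Prime) (j : Fin 8) : (p : ℤ) ∣ m j ↔ p = q j := by
  rw [Int.natCast_dvd, m_abs]
  exact Nat.prime_dvd_prime_iff_eq hp (q_prime j)

theorem sqf (j : Fin 8) : Squarefree (m j) := by
  rw [← Int.squarefree_natAbs, m_abs]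
  exact (q_prime j).prime.squarefree

/-- the eight quadratic characters -/
noncomputable def X (g : GQ) (j : Fin 8) : ZMod 2 := qz (m j) g

theorem X_ch {H : Subgroup GQ} : IsCh H X :=
  ⟨Sm.pi fun j => (isCh_qz (m j)).1,
    fun g hg h hh => funext fun j => (isCh_qz (m j)).2 g hg h hh⟩

theorem X_I (hA : CA) {w : Pl} (hw : w.p ∉ SS) {g : GQ} (hg : g ∈ w.I) : X g = 0 := by
  funext j
  by_cases h2 : w.p = 2
  · exact qz_I_two h2 (m4 j) hg
  · refine qz_I hA (fun h => ?_) hg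
    rcases (Nat.prime_iff_prime_int.1 w.prime).dvd_or_dvd h with h | h
    · exact h2 ((Nat.prime_dvd_prime_iff_eq w.prime Nat.prime_two).1 (by exact_mod_cast h))
    · exact hw ((dvd w.prime j).1 h ▸ q_mem j)

theorem X_gen (hA : CA) (j : Fin 8) (a : ZMod 2) : ∃ t, X t = Pi.single j a := by
  rcases LA.cases a with rfl | rfl
  · exact ⟨1, by rw [Pi.single_zero]; exact (X_ch (H := ⊤)).one⟩
  obtain ⟨w, hw⟩ := hA.pl.1 (q j) (q_prime j)
  have h2 : w.p ≠ 2 := hw ▸ q2 j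
  obtain ⟨t, ht, hβ⟩ := Pl.exists_gen hA.tame hA.res h2
  refine ⟨t, funext fun i => ?_⟩
  have e : X t i = 0 ↔ ¬ w.p = q i := by rw [← dvd w.prime]; exact qz_gen hA h2 ht hβ (sqf i)
  refine LA.ext ?_
  rw [e, hw]
  by_cases h : i = j
  · subst h; simp
  · rw [Pi.single_eq_of_ne h]
    exact ⟨fun _ => rfl, fun _ h' => h (q_inj _ _ h').symm⟩

theorem X_sur (hA : CA) : Function.Surjective X := by
  intro u
  have h : ∀ s : Finset (Fin 8), ∃ g, X g = ∑ j ∈ s, Pi.single j (u j) := by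
    intro s
    induction s using Finset.induction_on with
    | empty => exact ⟨1, by rw [Finset.sum_empty]; exact (X_ch (H := ⊤)).one⟩
    | insert j s hj ih =>
      obtain ⟨g, hg⟩ := ih
      obtain ⟨t, ht⟩ := X_gen hA j (u j)
      exact ⟨t * g, by
        rw [Finset.sum_insert hj, ← hg, ← ht]; exact (X_ch (H := ⊤)).2 _ trivial _ trivial⟩
  obtain ⟨g, hg⟩ := h Finset.univ
  exact ⟨g, hg.trans (Finset.univ_sum_single u)⟩

theorem proj (v : Fin 8 → ZMod 2) : ∃ π : (Fin 8 → ZMod 2) →+ Fin 7 → ZMod 2,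
    Function.Surjective π ∧ π v = 0 := by
  obtain ⟨j, hj⟩ : ∃ j, v j = 1 ∨ v = 0 := by
    by_cases h : v = 0
    · exact ⟨0, Or.inr h⟩
    · obtain ⟨j, hj⟩ := Function.ne_iff.1 h
      exact ⟨j, Or.inl ((LA.cases _).resolve_left hj)⟩
  refine ⟨AddMonoidHom.mk' (fun u i => u (j.succAbove i) - u j * v (j.succAbove i))
    fun a b => funext fun i => ?_, fun y => ⟨j.insertNth 0 y, funext fun i => ?_⟩,
    funext fun i => ?_⟩
  · simp only [Pi.add_apply]; ring
  · simp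
  · rcases hj with hj | hj <;> simp [hj]

end START

theorem t_START (hA : CA) : S_START := by
  intro p hp hS
  obtain ⟨w, hw⟩ := hA.pl.1 p hp
  obtain ⟨φ, hφ⟩ := Pl.exists_frob hA.frob w
  obtain ⟨π, hπ, h0⟩ := START.proj (START.X φ)
  have hc : ∀ H : Subgroup GQ, IsCh H fun g => π (START.X g) := fun H =>
    ⟨START.X_ch.1.comp π, fun g hg h hh => by
      show π _ = π _ + π _
      rw [START.X_ch.2 g hg h hh, map_add]⟩
  have hs : Function.Surjective fun g => π (START.X g) := hπ.comp (START.X_sur hA)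
  obtain ⟨U, hU, hk⟩ := (hc ⊤).exists_ker
  rw [top_inf_eq] at hk
  have mem : ∀ g, g ∈ U ↔ π (START.X g) = 0 := fun g => (hk g).trans (and_iff_right trivial)
  have hn : U.Normal := ⟨fun n h g => by
    have e1 := (hc ⊤).2 (g * n) trivial g⁻¹ trivial
    have e2 := (hc ⊤).2 g trivial n trivial
    have e3 := (hc ⊤).inv (g := g) trivial
    rw [mem] at h ⊢
    simp only at e1 e2 e3
    rw [e1, e2, e3, h, add_zero, add_neg_cancel]⟩
  have hI : ∀ w' : Pl, w'.p ∉ SS → ∀ g ∈ w'.I, π (START.X g) = 0 := fun w' h g hg => by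
    rw [START.X_I hA h hg, map_zero]
  refine ⟨U, _, ⟨hn, hU⟩, fun w' h g hg => (mem g).2 (hI w' h g hg), fun w' h g hg => ?_, ?_,
    ⟨fun g h => (hc ⊤).2 g trivial h trivial, hs⟩, fun n h => (mem n).1 h⟩
  · obtain ⟨σ, rfl⟩ := hA.pl.2.1 w w' (hw.trans h.symm)
    have e := (mem _).2 (ch_unr hA.frob (hc w.D) (hI w (hw ▸ hS)) hφ h0 _ (Pl.mem_D_smul.1 hg))
    simpa [mul_assoc] using hn.conj_mem _ e σ
  · rw [← Subgroup.relIndex_top_right, IsKer.relIndex (hc ⊤) hk, Subgroup.coe_top, Set.image_univ,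
      hs.range_eq, Set.ncard_univ]
    simp

end Pool.Agent.P.MP_657a03_nt.GS
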