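import Pool.Agent.P.MP_657a03_nt.GS.If
import Pool.Agent.P.MP_8b7eba_nt.R2.LC

/-! Proof of STEP. -/

set_option autoImplicit false

namespace Pool.Agent.P.MP_657a03_nt.GS

open Pool.Agent.P.MP_8b7eba_nt.R2

theorem t_STEP (hG : S_GS) (hS : S_SEL) : S_STEP := by
  intro p k N χ hp hpS hN hU hL hk hχ hχN
  have := hN.1
  have : N.FiniteIndex := ⟨by rw [hk]; positivity⟩
  have hmk : ∀ g, ∀ n ∈ N, ((g * n : GQ) : GQ ⧸ N) = g := fun g n hn => by
    rw [QuotientGroup.mk_mul, (QuotientGroup.eq_one_iff n).2 hn, mul_one]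
  have hout : ∀ {A : Type} (f : GQ → A), (∀ g, ∀ n ∈ N, f (g * n) = f g) →
      ∀ g : GQ, f (g : GQ ⧸ N).out = f g := fun f hf g => by
    obtain ⟨n, hn⟩ := QuotientGroup.mk_out_eq_mul N g
    rw [hn, hf g n n.2]
  have h1 := hout χ fun g n hn => by rw [hχ.1, hχN n hn, add_zero]
  obtain ⟨κ, hκ, hind⟩ := hG (GQ ⧸ N) (IsPGroup.of_card (n := k) hk) (fun q => χ q.out)
    ⟨fun a b => by
      induction a using QuotientGroup.induction_on
      induction b using QuotientGroup.induction_on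
      simp only [← QuotientGroup.mk_mul, h1, hχ.1], fun v => by
      obtain ⟨g, rfl⟩ := hχ.2 v
      exact ⟨g, h1 g⟩⟩
  obtain ⟨c, θ, hc, ⟨hsm, hθ⟩, hθU, hθL⟩ := hS p N (fun i g h => κ i g h) hp hpS hN hU hL
    (fun i => ⟨fun g => (hκ i).1 _, fun g => (hκ i).2.1 _, fun g h l => (hκ i).2.2 _ _ _⟩)
    fun i g h n hn => by simp only [hmk _ n hn, and_self]
  have hθ' : ∀ g h : GQ, θ (g * h) = θ g + θ h + (∑ i, c i • κ i) g h := fun g h => by
    simpa using hθ g trivial h trivial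
  have hr : ∀ g, ∀ n ∈ N, θ (g * n) = θ g + θ n := fun g n hn => by
    simp [hθ', (QuotientGroup.eq_one_iff n).2 hn, fun i => (hκ i).2.1]
  have hl : ∀ g, ∀ n ∈ N, θ (n * g) = θ n + θ g := fun g n hn => by
    simp [hθ', (QuotientGroup.eq_one_iff n).2 hn, fun i => (hκ i).1]
  have hch : IsCh N θ := ⟨hsm.mono le_top, fun g _ h hh => hr g h hh⟩
  obtain ⟨U, hUo, hker⟩ := hch.exists_ker
  have hne : ∃ n ∈ N, θ n = 1 := by
    by_contra h
    have h0 : ∀ n ∈ N, θ n = 0 := fun n hn => by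
      have : θ n ≠ 1 := fun e => h ⟨n, hn, e⟩
      revert this
      generalize θ n = t
      revert t
      decide
    have h2 := hout θ fun g n hn => by rw [hr g n hn, h0 n hn, add_zero]
    refine hc (hind c ⟨fun q => θ q.out, fun a b => ?_⟩)
    induction a using QuotientGroup.induction_on
    induction b using QuotientGroup.induction_on
    simp only [← QuotientGroup.mk_mul, h2, hθ']
  refine ⟨N ⊓ U, inf_le_left, ⟨⟨fun n hn g => ?_⟩, hN.2.inter hUo⟩,
    fun w hw g hg => (hker g).2 ⟨hU w hw hg, hθU w hw g hg⟩,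
    fun w hw g hg => (hker g).2 ⟨hL w hw hg, hθL w hw g hg⟩, ?_⟩
  · obtain ⟨h2, h3⟩ := (hker n).1 hn
    have h4 := hN.1.conj_mem n h2 g
    have h5 := hl g _ h4
    rw [inv_mul_cancel_right, hr g n h2, h3, add_zero] at h5
    exact (hker _).2 ⟨h4, by simpa using h5⟩
  · have h2 : θ '' N = Set.univ := by
      obtain ⟨n, hn, e⟩ := hne
      refine Set.eq_univ_of_forall fun t => ?_
      have : t = 0 ∨ t = 1 := by
        revert t
        decide
      rcases this with rfl | rfl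
      · exact ⟨1, N.one_mem, hch.one⟩
      · exact ⟨n, hn, e⟩
    rw [← Subgroup.relIndex_mul_index (inf_le_left : N ⊓ U ≤ N), IsKer.relIndex hch hker, h2, hk,
      Set.ncard_univ, Nat.card_zmod, pow_succ']

end Pool.Agent.P.MP_657a03_nt.GS
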