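import Pool.Agent.P.MP_657a03_nt.GS.If
import Pool.Agent.P.MP_8b7eba_nt.R2.Basic
import Pool.Agent.P.MP_657a03_nt.Final

/-! The tower, and the power saving. -/

set_option autoImplicit false

open NumberField NumberField.Units Module Real

namespace Pool.Agent.P.MP_657a03_nt.GS

open Pool.Agent.P.MP_8b7eba_nt.R2

theorem t_TOW (h1 : S_START) (h2 : S_STEP) (h3 : S_DISC) (h4 : S_EMB) : S_TOW := by
  refine ⟨((∏ l ∈ SS, l : ℕ) : ℝ), by norm_num [SS], fun p hp h23 d hd => ?_⟩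
  have hS : p ∉ SS := fun h => by
    simp only [SS, Finset.mem_insert, Finset.mem_singleton] at h
    omega
  obtain ⟨N0, χ, a1, a2, a3, a4, a5, a6⟩ := h1 p hp.out hS
  have key : ∀ k, 7 ≤ k → ∃ N ≤ N0, ON N ∧ Unr N ∧ Spl p N ∧ N.index = 2 ^ k := fun k hk => by
    induction k, hk using Nat.le_induction with
    | base => exact ⟨N0, le_rfl, a1, a2, a3, a4⟩
    | succ k hk ih =>
      obtain ⟨N, b0, b1, b2, b3, b4⟩ := ih
      obtain ⟨N', c0, c⟩ := h2 p k N χ hp.out hS b1 b2 b3 b4 a5 fun n hn => a6 n (b0 hn)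
      exact ⟨N', c0.trans b0, c⟩
  obtain ⟨N, -, b1, b2, b3, b4⟩ := key d hd
  have := numberField b1.2
  obtain ⟨ι⟩ := h4 p N b3
  have hf : finrank ℚ (IntermediateField.fixedField N) = 2 ^ d := (finrank_fixedField b1.2).trans b4
  refine ⟨IntermediateField.fixedField N, inferInstance, this, ι, hf, ?_⟩
  have h5 := h3 N d b1 b2 b4
  rw [hf, ← Int.cast_abs, ← Int.natCast_natAbs, Int.cast_natCast]
  exact_mod_cast h5

theorem growth (K0 : ℝ) (hK : 1 ≤ K0) : ∃ P : ℕ, ∀ p : ℕ, P < p →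
    K0 * (320 * log (log p) + 300) ≤ log p ∧ 1 ≤ log p := by
  obtain ⟨P, h⟩ := Final.growth K0 hK
  refine ⟨max P 2, fun p hp => ?_⟩
  obtain ⟨h1, h2⟩ := h p (by omega) 0 (by
    have : tower (0 + 1) = 2 := rfl
    omega)
  refine ⟨le_trans ?_ h1, h2⟩
  have h3 := log_nonneg h2
  rw [mul_assoc]
  refine mul_le_mul_of_nonneg_left ?_ (by linarith)
  norm_num
  linarith

theorem t_POW (h1 : S_CORE) (h2 : S_TOW) : S_POW := by
  obtain ⟨C, hC, h1⟩ := h1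
  obtain ⟨ρ0, hρ0, h2⟩ := h2
  set K0 : ℝ := C * ρ0 ^ 3 with hK0
  have hK : 1 ≤ K0 := one_le_mul_of_one_le_of_one_le hC (one_le_pow₀ hρ0)
  refine ⟨(8 * K0)⁻¹, by positivity, fun a b ha hb hab => ?_⟩
  obtain ⟨P1, h1⟩ := h1 (max a.natAbs b.natAbs)
  obtain ⟨P2, h3⟩ := growth K0 hK
  refine ⟨max (max P1 P2) 23, fun p hp hpp N hdvd => ?_⟩
  have : Fact p.Prime := ⟨hpp⟩
  obtain ⟨hg, hy1⟩ := h3 p (by omega)
  have hp0 : (0 : ℝ) < p := by exact_mod_cast hpp.pos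
  set y := log (p : ℝ) with hy
  have hW : (0 : ℝ) < K0 := by positivity
  set x := y / K0 with hx
  have hly : 0 ≤ log y := log_nonneg hy1
  have hx1 : 320 * log y + 300 ≤ x := by
    rw [hx, le_div_iff₀ hW]
    linarith
  have hfl : 300 ≤ ⌊x⌋₊ := Nat.le_floor (by push_cast; linarith)
  set d := Nat.log 2 (⌊x⌋₊ - 2) with hd
  have hd1 : 2 ^ d ≤ ⌊x⌋₊ - 2 := Nat.pow_log_le_self 2 (by omega)
  have hd2 : ⌊x⌋₊ - 2 < 2 ^ (d + 1) := Nat.lt_pow_succ_log_self (by norm_num) _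
  have hd7 : 7 ≤ d := by
    by_contra h
    have h4 : 2 ^ (d + 1) ≤ 2 ^ 7 := Nat.pow_le_pow_right (by norm_num) (by omega)
    omega
  have hfx : (⌊x⌋₊ : ℝ) ≤ x := Nat.floor_le (by linarith)
  have hfx' : x < ⌊x⌋₊ + 1 := Nat.lt_floor_add_one x
  obtain ⟨K, _, _, ι, hdeg, hdisc⟩ := h2 p (by omega) d hd7
  obtain ⟨hr1, hr2⟩ := Final.rank_bounds K
  rw [hdeg] at hr1 hr2
  have hr3 : ((rank K : ℝ) + 3) ≤ x := by
    have h4 : rank K + 3 ≤ ⌊x⌋₊ := by omega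
    have h5 : ((rank K + 3 : ℕ) : ℝ) ≤ ⌊x⌋₊ := by exact_mod_cast h4
    push_cast at h5
    linarith
  have hr4 : x ≤ 4 * (rank K : ℝ) + 12 := by
    have h4 : ⌊x⌋₊ + 1 ≤ 4 * rank K + 12 := by
      rw [pow_succ] at hd2
      omega
    have h5 : ((⌊x⌋₊ + 1 : ℕ) : ℝ) ≤ ((4 * rank K + 12 : ℕ) : ℝ) := by exact_mod_cast h4
    push_cast at h5
    linarith
  have hN := h1 p (by omega) K ι ρ0 a b N hρ0 hdisc (by
      rw [← hK0, mul_comm]
      exact (le_div_iff₀ hW).1 hr3) ha hb hab (by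
      rw [← Int.natCast_natAbs]
      exact_mod_cast le_max_left _ _) (by
      rw [← Int.natCast_natAbs]
      exact_mod_cast le_max_right _ _) hdvd
  have hcJ : (8 * K0)⁻¹ * y = x / 8 := by
    rw [hx]
    field_simp
  refine hN.trans ?_
  rw [rpow_def_of_pos hp0, ← hy]
  have h7 : (p : ℝ) * y ^ 40 * exp (-(rank K : ℝ)) = exp (y + 40 * log y - rank K) := by
    rw [sub_eq_add_neg, exp_add, exp_add, hy, exp_log hp0, ← hy,
      show (40 : ℝ) * log y = log (y ^ 40) by rw [log_pow]; norm_num, exp_log (by positivity)]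
  rw [h7]
  refine exp_le_exp.2 ?_
  nlinarith

end Pool.Agent.P.MP_657a03_nt.GS
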