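import Pool.Agent.P.MP_657a03_nt.All
import Pool.Agent.P.MP_657a03_nt.GS.NAK
import Pool.Agent.P.MP_657a03_nt.GS.GEN
import Pool.Agent.P.MP_657a03_nt.GS.FIL
import Pool.Agent.P.MP_657a03_nt.GS.COC
import Pool.Agent.P.MP_657a03_nt.GS.GSF
import Pool.Agent.P.MP_657a03_nt.GS.LIFT
import Pool.Agent.P.MP_657a03_nt.GS.SEL
import Pool.Agent.P.MP_657a03_nt.GS.STEP
import Pool.Agent.P.MP_657a03_nt.GS.START
import Pool.Agent.P.MP_657a03_nt.GS.DISC
import Pool.Agent.P.MP_657a03_nt.GS.EMB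
import Pool.Agent.P.MP_657a03_nt.GS.CAll
import Pool.Agent.P.MP_657a03_nt.GS.TOW
import Pool.Agent.P.MP_8b7eba_nt.R2.TABHNQ

/-! All pieces put together. -/

set_option autoImplicit false

namespace Pool.Agent.P.MP_657a03_nt.GS

open Pool.Agent.P.MP_8b7eba_nt.R2

theorem towAll : S_TOW :=
  t_TOW (t_START caAll)
    (t_STEP (t_GS t_NAK (t_GEN t_NAK) t_FIL t_COC)
      (t_SEL caAll (t_LIFT caAll (t_GTH caAll (t_ABHNQ caAll)))))
    (t_DISC caAll) (t_EMB caAll)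

theorem powAll : S_POW := t_POW coreAll towAll

end Pool.Agent.P.MP_657a03_nt.GS
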