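import Pool.Agent.P.MP_657a03_nt.GS.If
import Pool.Agent.P.MP_8b7eba_nt.R2.LC

/-! Proof of EMB. -/

set_option autoImplicit false

namespace Pool.Agent.P.MP_657a03_nt.GS

open Pool.Agent.P.MP_8b7eba_nt.R2
open scoped NNReal

namespace EMB

/-- the place given by the fixed embedding -/
noncomputable def pl (p : ℕ) [hp : Fact p.Prime] : Pl :=
  ⟨p, hp.out, (PadicAlgCl.valued p).v.comap (MP_9c97e9_nt.emb ℚ ℚ_[p]), by
    rw [Valuation.comap_apply, map_natCast, ← one_div]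
    exact PadicAlgCl.valuation_p p⟩

theorem pl_v (p : ℕ) [Fact p.Prime] (x : Om) :
    (pl p).v x = ‖(MP_9c97e9_nt.emb ℚ ℚ_[p] x : PadicAlgCl p)‖₊ := rfl

theorem closed (p : ℕ) [Fact p.Prime] :
    IsClosed (Set.range (algebraMap ℚ_[p] (PadicAlgCl p))) := by
  have h : Isometry (algebraMap ℚ_[p] (PadicAlgCl p)) :=
    AddMonoidHomClass.isometry_of_norm _ (PadicAlgCl.norm_extends p)
  exact h.isClosedEmbedding.isClosed_range

theorem mem_int (hA : CA) (p : ℕ) [hp : Fact p.Prime] (x : Om) (hx : Fix (pl p).D x)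
    (h1 : (pl p).v x ≤ 1) :
    (MP_9c97e9_nt.emb ℚ ℚ_[p] x : PadicAlgCl p) ∈
      Set.range (algebraMap ℚ_[p] (PadicAlgCl p)) := by
  have hL : (pl p).Loc (pl p).D := ⟨⊤, isOpen_univ, (inf_top_eq _).symm⟩
  have h := (hA.res (pl p) _ hL).2.2.2.2.2 x hx h1
  rw [← (closed p).closure_eq, Metric.mem_closure_iff]
  intro ε hε
  have hp1 : (1 : ℝ) < p := Nat.one_lt_cast.2 hp.out.one_lt
  obtain ⟨n, hn⟩ := pow_unbounded_of_one_lt ε⁻¹ hp1
  obtain ⟨m, hm⟩ := h n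
  refine ⟨(m : PadicAlgCl p), ⟨m, map_natCast _ m⟩, ?_⟩
  rw [pl_v, map_sub, map_natCast] at hm
  rw [dist_eq_norm]
  have h2 : ‖(MP_9c97e9_nt.emb ℚ ℚ_[p] x : PadicAlgCl p) - (m : PadicAlgCl p)‖ ≤
      ((p : ℝ) ^ n)⁻¹ := by
    have h3 := NNReal.coe_le_coe.2 hm
    rw [NNReal.coe_inv, NNReal.coe_pow, NNReal.coe_natCast] at h3
    exact h3
  exact h2.trans_lt ((inv_lt_comm₀ (by positivity) hε).2 hn)

theorem mem (hA : CA) (p : ℕ) [hp : Fact p.Prime] (x : Om) (hx : Fix (pl p).D x) :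
    (MP_9c97e9_nt.emb ℚ ℚ_[p] x : PadicAlgCl p) ∈
      (algebraMap ℚ_[p] (PadicAlgCl p)).fieldRange := by
  by_cases h1 : (pl p).v x ≤ 1
  · exact mem_int hA p x hx h1
  · have h2 : (pl p).v x⁻¹ ≤ 1 := by
      rw [map_inv₀]
      exact inv_le_one_of_one_le₀ (not_le.1 h1).le
    have h3 : Fix (pl p).D x⁻¹ := fun σ hσ => by rw [map_inv₀, hx σ hσ]
    have h4 : (MP_9c97e9_nt.emb ℚ ℚ_[p] x⁻¹ : PadicAlgCl p) ∈
        (algebraMap ℚ_[p] (PadicAlgCl p)).fieldRange := mem_int hA p _ h3 h2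
    rw [map_inv₀] at h4
    exact inv_mem_iff.1 h4

end EMB

theorem t_EMB (hA : CA) : S_EMB := by
  intro p _ N hN
  let e : IntermediateField.fixedField N →+* PadicAlgCl p :=
    (MP_9c97e9_nt.emb ℚ ℚ_[p]).comp (IntermediateField.fixedField N).subtype
  have he : ∀ x, e x ∈ (algebraMap ℚ_[p] (PadicAlgCl p)).fieldRange := fun x =>
    EMB.mem hA p x fun σ hσ =>
      (IntermediateField.mem_fixedField_iff N x).1 x.2 σ (hN (EMB.pl p) rfl hσ)
  exact ⟨((algebraMap ℚ_[p] (PadicAlgCl p)).rangeRestrictFieldEquiv.symm : _ →+* ℚ_[p]).comp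
    (e.codRestrict _ he)⟩

end Pool.Agent.P.MP_657a03_nt.GS
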