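import Pool.Agent.P.MP_8b7eba_nt.R2.IfL
import Pool.Agent.P.MP_657a03_nt.Iface

/-! Statements: an infinite tame tower of two-extensions in which a given prime splits. -/

set_option autoImplicit false

namespace Pool.Agent.P.MP_657a03_nt.GS

open Pool.Agent.P.MP_8b7eba_nt.R2

/-- normalised two-cocycles with values in the field with two elements -/
def Coc {G : Type} [Group G] (κ : G → G → ZMod 2) : Prop :=
  (∀ g, κ 1 g = 0) ∧ (∀ g, κ g 1 = 0) ∧ ∀ g h k, κ h k + κ g (h * k) = κ (g * h) k + κ g h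

/-- coboundaries -/
def Cob {G : Type} [Group G] (κ : G → G → ZMod 2) : Prop :=
  ∃ θ : G → ZMod 2, ∀ g h, θ (g * h) = θ g + θ h + κ g h

/-- a surjective homomorphism onto the elementary group of rank seven -/
def Sur {G : Type} [Group G] (χ : G → Fin 7 → ZMod 2) : Prop :=
  (∀ g h, χ (g * h) = χ g + χ h) ∧ Function.Surjective χ

/-- the set of ramified primes -/
def SS : Finset ℕ := {3, 5, 7, 11, 13, 17, 19, 23}

/-- unramified outside `SS` -/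
def Unr (N : Subgroup GQ) : Prop := ∀ w : Pl, w.p ∉ SS → w.I ≤ N

/-- `p` splits completely -/
def Spl (p : ℕ) (N : Subgroup GQ) : Prop := ∀ w : Pl, w.p = p → w.D ≤ N

/-! ### Group theory -/

/-- the group algebra -/
abbrev GA (G : Type) [Group G] : Type := MonoidAlgebra (ZMod 2) G

/-- the augmentation ideal, as a left ideal -/
noncomputable def aug (G : Type) [Group G] : Ideal (GA G) :=
  Ideal.span (Set.range fun g : G => MonoidAlgebra.of (ZMod 2) G g - 1)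

/-- Nakayama's lemma for the group algebra of a finite two-group -/
def S_NAK : Prop :=
  ∀ (G : Type) [Group G] [Finite G], IsPGroup 2 G →
    ∀ (M : Type) [AddCommGroup M] [Module (GA G) M] [Finite M] (P : Submodule (GA G) M),
      P ⊔ aug G • ⊤ = ⊤ → P = ⊤

/-- a minimal presentation of the augmentation ideal -/
def S_GEN : Prop :=
  ∀ (G : Type) [Group G] [Finite G], IsPGroup 2 G → ∀ χ : G → Fin 7 → ZMod 2, Sur χ →
    ∃ (d : ℕ) (φ : (Fin d → GA G) →ₗ[GA G] GA G), 7 ≤ d ∧ LinearMap.range φ = aug G ∧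
      LinearMap.ker φ ≤ aug G • ⊤

/-- the inequality of Golod and Shafarevich -/
def S_FIL : Prop :=
  ∀ (A : Type) [Ring A] [Finite A] (I : Ideal A) (d : ℕ) (φ : (Fin d → A) →ₗ[A] A)
    (ψ : (Fin 10 → A) →ₗ[A] Fin d → A), I ≠ ⊤ → 7 ≤ d → Nat.card (A ⧸ I) = 2 →
    (∀ x ∈ I, ∀ a, x * a ∈ I) → LinearMap.range φ = I → LinearMap.ker φ ≤ I • ⊤ →
    LinearMap.range ψ = LinearMap.ker φ → False

/-- invariant linear forms on the module of relations give independent cocycles -/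
def S_COC : Prop :=
  ∀ (G : Type) [Group G] [Finite G] (d : ℕ) (φ : (Fin d → GA G) →ₗ[GA G] GA G),
    LinearMap.range φ = aug G → LinearMap.ker φ ≤ aug G • ⊤ →
    ∃ c : G → G → LinearMap.ker φ, (∀ g, c 1 g = 0) ∧ (∀ g, c g 1 = 0) ∧
      (∀ g h k, MonoidAlgebra.of (ZMod 2) G g • c h k + c g (h * k) = c (g * h) k + c g h) ∧
      ∀ l : LinearMap.ker φ →+ ZMod 2, (∀ (g : G) x, l (MonoidAlgebra.of (ZMod 2) G g • x) = l x) →
        Cob (fun g h => l (c g h)) → l = 0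

/-- a finite two-group with seven generators has eleven independent cocycles -/
def S_GS : Prop :=
  ∀ (G : Type) [Group G] [Finite G], IsPGroup 2 G → ∀ χ : G → Fin 7 → ZMod 2, Sur χ →
    ∃ κ : Fin 11 → G → G → ZMod 2, (∀ i, Coc (κ i)) ∧
      ∀ c : Fin 11 → ZMod 2, Cob (∑ i, c i • κ i) → c = 0

/-! ### Arithmetic -/

/-- central embedding problems with ramification only in `SS` -/
def S_LIFT : Prop :=
  ∀ (N : Subgroup GQ) (κ : GQ → GQ → ZMod 2), ON N → Unr N → Coc κ →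
    (∀ g h, ∀ n ∈ N, κ (g * n) h = κ g h ∧ κ g (h * n) = κ g h) →
    (∀ l ∈ SS, ∃ w : Pl, w.p = l ∧ Triv w.D (sgn κ)) → κ tau tau = 0 →
    ∃ θ, Bd ⊤ κ θ ∧ ∀ w : Pl, w.p ∉ SS → ∀ i ∈ w.I, θ i = 0

/-- among eleven cocycles one combination has a solution in which `p` splits -/
def S_SEL : Prop :=
  ∀ (p : ℕ) (N : Subgroup GQ) (κ : Fin 11 → GQ → GQ → ZMod 2), p.Prime → p ∉ SS → ON N → Unr N →
    Spl p N → (∀ i, Coc (κ i)) →
    (∀ i g h, ∀ n ∈ N, κ i (g * n) h = κ i g h ∧ κ i g (h * n) = κ i g h) →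
    ∃ (c : Fin 11 → ZMod 2) (θ : GQ → ZMod 2), c ≠ 0 ∧ Bd ⊤ (∑ i, c i • κ i) θ ∧
      (∀ w : Pl, w.p ∉ SS → ∀ i ∈ w.I, θ i = 0) ∧ ∀ w : Pl, w.p = p → ∀ g ∈ w.D, θ g = 0

/-- one more layer -/
def S_STEP : Prop :=
  ∀ (p k : ℕ) (N : Subgroup GQ) (χ : GQ → Fin 7 → ZMod 2), p.Prime → p ∉ SS → ON N → Unr N →
    Spl p N → N.index = 2 ^ k → Sur χ → (∀ n ∈ N, χ n = 0) →
    ∃ N' ≤ N, ON N' ∧ Unr N' ∧ Spl p N' ∧ N'.index = 2 ^ (k + 1)

/-- the first layer -/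
def S_START : Prop :=
  ∀ p : ℕ, p.Prime → p ∉ SS → ∃ (N : Subgroup GQ) (χ : GQ → Fin 7 → ZMod 2), ON N ∧ Unr N ∧
    Spl p N ∧ N.index = 2 ^ 7 ∧ Sur χ ∧ ∀ n ∈ N, χ n = 0

/-- the discriminant of a tamely ramified field -/
def S_DISC : Prop :=
  ∀ (N : Subgroup GQ) (k : ℕ) [NumberField (IntermediateField.fixedField N)], ON N → Unr N →
    N.index = 2 ^ k →
    (NumberField.discr (IntermediateField.fixedField N)).natAbs ≤ (∏ l ∈ SS, l) ^ 2 ^ k

/-- a field in which `p` splits embeds in the `p`-adic numbers -/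
def S_EMB : Prop :=
  ∀ (p : ℕ) [Fact p.Prime] (N : Subgroup GQ), Spl p N →
    Nonempty (IntermediateField.fixedField N →+* ℚ_[p])

/-- fields of bounded root discriminant inside the `p`-adic numbers -/
def S_TOW : Prop :=
  ∃ ρ0 : ℝ, 1 ≤ ρ0 ∧ ∀ (p : ℕ) [Fact p.Prime], 23 < p → ∀ d : ℕ, 7 ≤ d →
    ∃ (K : Type) (_ : Field K) (_ : NumberField K) (_ : K →+* ℚ_[p]),
      Module.finrank ℚ K = 2 ^ d ∧ |(NumberField.discr K : ℝ)| ≤ ρ0 ^ Module.finrank ℚ K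

/-- the power saving -/
def S_POW : Prop :=
  ∃ c : ℝ, 0 < c ∧ ∀ a b : ℤ, a ≠ 0 → b ≠ 0 → |a| ≠ |b| → ∃ P0 : ℕ, ∀ p : ℕ, P0 < p →
    p.Prime → ∀ N : ℕ, (p : ℤ) ^ N ∣ a ^ (p - 1) - b ^ (p - 1) → (N : ℝ) ≤ (p : ℝ) ^ (1 - c)

end Pool.Agent.P.MP_657a03_nt.GS
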